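import Pool.Agent.T2h79.LG.Stm4

/-!
# A density theorem for the universal family of `GL_n` over `ℚ`, level `K_1(N)`: statements

Let `n ≥ 3`. In the family of all cusp forms of `GL_n` over `ℚ` of level `K_1(N)` (the forms of conductor dividing `N`,
about `N^n` of bounded type at infinity) at most `C X^A N^(n - 2 τ + ε)` members have a Satake parameter of absolute
value at least `p^τ` for a prime `p ≤ X` not dividing `N`, for all `τ ≤ τ₀(n)`.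
-/

set_option autoImplicit false

open MeasureTheory Matrix
open scoped MatrixGroups ENNReal Topology ComplexConjugate

noncomputable section

namespace Pool.Agent.T2h77.Z

open Pool.Agent.T2h77.N Pool.Agent.T2h79.LG

/-- SHV: the volume of the shells.

Proof (from `S_iw`, `S_int`). On `SG n` all the ratios `ac x i / ac x j` (`i + 1 = j`) are at most `2`; on `SH n Y (2Y)` one
of the ratios `ac x j / ac x i` is at least `Y`. So `wt (ac x) ≥ 2^(-n^3) Y` there (each factor `a_i / a_j`, `j < i`, of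
`wt` is a product of at most `n` consecutive ratios, each at least `1/2`; the factor of the pair with the large ratio is
at least `Y`). Hence `mu (SH n Y (2Y)) ≤ 2^(n^3) Y⁻¹ ∫ wt (ac x)` over `SL n (2Y)`, and `S_int` with `W = 2Y`,
`1 + log (2 Y) ≤ 2 (1 + log Y)`. See `vol_SL`, `wt_lower` and `measurable_SH` in `Pool.Agent.T2h77N.Asm3` and the files it
imports. -/
def S_shv : Prop :=
  ∀ n : ℕ, 1 ≤ n → ∃ C : ℝ, 1 ≤ C ∧ ∀ Y : ℝ, 1 ≤ Y →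
    mu n (SH n Y (2 * Y)) ≤ ENNReal.ofReal (C * Y⁻¹ * (1 + Real.log Y) ^ n)

/-- the bound at a point for a single Hecke operator `T(m)`, `m` up to `N^dd` -/
def PLS (n : ℕ) (H : (N : ℕ) → Subgroup (GN n N)) (dd : ℕ) (sz : ℕ → ℝ) : Prop :=
  ∀ χ : GR n → ℝ, Continuous χ → HasCompactSupport χ → ∀ ε : ℝ, 0 < ε → ∃ C : ℝ, 1 ≤ C ∧
    ∀ (N : ℕ) [NeZero N] (F : Set (GR n)), IsFD F →
    ∀ (k : ℕ) (f : Fin k → GR n → XX (H N) → ℂ) (l : Fin k → ℕ → ℂ), Fam F f → (∀ i, IsEig (l i) (f i)) →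
    ∀ (Y : ℝ) (m : ℕ), 1 ≤ Y → 0 < m → m.Coprime N → C * m * Y ^ (n ^ 2) ≤ (N : ℝ) ^ dd →
    ∀ x ∈ SL n Y, ∑ i, ‖l i m‖ₑ ^ 2 * sq (Rc χ (f i)) x ≤ ENNReal.ofReal (C * sz N * (N : ℝ) ^ ε)

/-- PL1: level `K_1(N)`. Proof: `S_lp1` with `B = {m}`, `b = 1`. -/
def S_pl1 : Prop := ∀ n : ℕ, 2 ≤ n → PLS n (fun N => H1 n N) 1 fun N => (N : ℝ) ^ n

/-- SHB: the bound for the mass in a region.

Proof (from `S_cov`, `S_rcf`): integrate PLS over `T`, exactly as in `Pool/Agent/T2h79/LG/T_LI1.lean` (with `T` instead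
of `SL n Y`; PLS is a hypothesis for the given `n, H, dd, sz`). -/
def S_shb : Prop :=
  ∀ n : ℕ, 1 ≤ n → ∀ (H : (N : ℕ) → Subgroup (GN n N)) (dd : ℕ) (sz : ℕ → ℝ), (∀ N, 0 ≤ sz N) → PLS n H dd sz →
    ∀ χ : GR n → ℝ, Continuous χ → HasCompactSupport χ → ∀ ε : ℝ, 0 < ε → ∃ C : ℝ, 1 ≤ C ∧
    ∀ (N : ℕ) [NeZero N] (F : Set (GR n)), IsFD F →
    ∀ (k : ℕ) (f : Fin k → GR n → XX (H N) → ℂ) (l : Fin k → ℕ → ℂ), Fam F f → (∀ i, IsEig (l i) (f i)) →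
    ∀ (Y : ℝ) (m : ℕ), 1 ≤ Y → 0 < m → m.Coprime N → C * m * Y ^ (n ^ 2) ≤ (N : ℝ) ^ dd →
    ∀ T : Set (GR n), MeasurableSet T → T ⊆ SL n Y →
    ∑ i, ‖l i m‖ₑ ^ 2 * ∫⁻ g in F ∩ sat T, sq (Rc χ (f i)) g ∂(mu n) ≤
      ENNReal.ofReal (C * sz N * (N : ℝ) ^ ε) * mu n T

/-- `f` (with the eigenvalues `l`) violates the bound `p^τ` at the prime `p` -/
def Viol {n : ℕ} (N : ℕ) (τ : ℝ) (p : ℕ) (l : ℕ → ℂ) : Prop :=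
  p.Prime ∧ ¬ p ∣ N ∧ ∃ α : Fin n → ℂ, (∀ r : ℕ, l (p ^ r) = hs α r) ∧ ∃ j, (p : ℝ) ^ τ ≤ ‖α j‖

/-- REG: the mass of the violating forms in a region.

Proof (from SHB for `n, H, dd, sz` and `S_grow`). Let `C₀` be the constant of SHB, `M = N^dd / (C₀ Y^(n²)) ≥ 1`, and let
`k₀` be the integer with `p^k₀ ≤ M < p^(k₀+1)` (`Nat.log p ⌊M⌋₊`). Let `i ∈ I`, `α` its parameters, `j` an index with `‖α j‖`
maximal; then `‖α j‖ ≥ p^τ ≥ 1`. By `S_grow` there is `l ≤ k₀`, `k₀ < l + n` with `‖α j‖^l ≤ 2^(n-1) ‖hs α l‖`, so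
`‖hs α l‖² ≥ 4^(-(n-1)) p^(2 τ l) ≥ Q`, `Q = 4^(-(n-1)) (M / X^n)^(2τ)`, because `p^l ≥ p^(k₀+1-n) ≥ M p^(-n) ≥ M X^(-n)`.
So `∑_{i ∈ I} mass_i ≤ ∑_{l ≤ k₀, k₀ < l + n} Q⁻¹ ∑_i ‖l_i(p^l)‖² mass_i ≤ n Q⁻¹ C₀ sz N N^ε V` by SHB with `m = p^l ≤ M`
(at most `n` values of `l`). And `Q⁻¹ ≤ 4^n X^(2nτ) C₀^(2τ) Y^(2 n² τ) N^(-2 dd τ)`, with `τ ≤ 1`: take
`C = n 4^n C₀^3`. -/
def S_reg : Prop :=
  ∀ n : ℕ, 1 ≤ n → ∀ (H : (N : ℕ) → Subgroup (GN n N)) (dd : ℕ) (sz : ℕ → ℝ), (∀ N, 0 ≤ sz N) → PLS n H dd sz →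
    ∀ χ : GR n → ℝ, Continuous χ → HasCompactSupport χ → ∀ ε : ℝ, 0 < ε → ∃ C : ℝ, 1 ≤ C ∧
    ∀ (N : ℕ) [NeZero N] (F : Set (GR n)), IsFD F →
    ∀ (k : ℕ) (f : Fin k → GR n → XX (H N) → ℂ) (l : Fin k → ℕ → ℂ), Fam F f → (∀ i, IsEig (l i) (f i)) →
    ∀ (τ X Y V : ℝ) (p : ℕ), 0 < τ → τ ≤ 1 → (p : ℝ) ≤ X → 1 ≤ Y → C * Y ^ (n ^ 2) ≤ (N : ℝ) ^ dd → 0 ≤ V →
    ∀ T : Set (GR n), MeasurableSet T → T ⊆ SL n Y → mu n T ≤ ENNReal.ofReal V →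
    ∀ I : Finset (Fin k), (∀ i ∈ I, Viol (n := n) N τ p (l i)) →
    ∑ i ∈ I, ∫⁻ g in F ∩ sat T, sq (Rc χ (f i)) g ∂(mu n) ≤
      ENNReal.ofReal (C * X ^ (2 * n * τ) * sz N * (N : ℝ) ^ (ε - 2 * dd * τ) * Y ^ (2 * n ^ 2 * τ) * V)

/-- LOWR: the violating forms with mass in the low region.

Proof (from REG, SHV, `vol_SL`). `2 n² τ ≤ 1`. Let `J` be the least integer with `2^J ≥ Y`, `Y = C₁ N^η`; `η n² ≤ 1/4`, so for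
`N ≥ N₀` (depending on `C₁`, `η` and the constant `C₀` of REG) `C₀ (2^(J+1))^(n²) ≤ C₀ (4Y)^(n²) ≤ N ≤ N^dd`. The set `SL n Y` is
contained in the union of `SL n 1` and the `SH n (2^j) (2^(j+1))`, `j < J` (if `R` is the largest ratio
`ac x j / ac x i`, `i + 1 = j`, and `R > 1`, take `2^j < R ≤ 2^(j+1)`). So for `i ∈ I`, `1/8 ≤` the mass in `SL n Y` `≤` the sum
of the masses in these `J + 1` sets (`sat` of a union is the union of the `sat`s). REG for each of them: `Y^(2 n² τ) V` is at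
most `C` for `SL n 1`, and `2^((j+1) 2n²τ) C 2^(-j) (1 + j)^n ≤ 2 C (1 + J)^n` for the shells (SHV,
`Y^(2n²τ) ≤ Y` for `Y ≥ 1`). In total `|I| ≤ C (1 + J)^(n+1) X^(2nτ) sz N N^(ε/2 - 2 dd τ)` (REG with `ε/2`), and
`(1 + J)^(n+1) ≤ C N^(ε/2)` (`J ≤ C (1 + log N)`). -/
def S_lowr : Prop :=
  ∀ n : ℕ, 1 ≤ n → ∀ (H : (N : ℕ) → Subgroup (GN n N)) (dd : ℕ) (sz : ℕ → ℝ), 1 ≤ dd → (∀ N, 0 ≤ sz N) →
    PLS n H dd sz →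
    ∀ χ : GR n → ℝ, Continuous χ → HasCompactSupport χ → ∀ ε η C₁ : ℝ, 0 < ε → 0 < η → η * n ^ 2 ≤ 1 / 4 → 1 ≤ C₁ →
    ∃ (C : ℝ) (N₀ : ℕ), 1 ≤ C ∧
    ∀ (N : ℕ) [NeZero N] (F : Set (GR n)), N₀ ≤ N → IsFD F →
    ∀ (k : ℕ) (f : Fin k → GR n → XX (H N) → ℂ) (l : Fin k → ℕ → ℂ), Fam F f → (∀ i, IsEig (l i) (f i)) →
    ∀ (τ X : ℝ) (p : ℕ), 0 < τ → 2 * n ^ 2 * τ ≤ 1 → (p : ℝ) ≤ X →
    ∀ I : Finset (Fin k), (∀ i ∈ I, Viol (n := n) N τ p (l i)) →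
    (∀ i ∈ I, ENNReal.ofReal (1 / 8) ≤
        ∫⁻ g in F ∩ sat (SL n (C₁ * (N : ℝ) ^ η)), sq (Rc χ (f i)) g ∂(mu n)) →
    (I.card : ℝ) ≤ C * X ^ (2 * n * τ) * sz N * (N : ℝ) ^ (ε - 2 * dd * τ)

/-- the main theorem for a level structure `H` -/
def Dens (n : ℕ) (H : (N : ℕ) → Subgroup (GN n N)) (dd : ℕ) (sz : ℕ → ℝ) : Prop :=
  ∃ τ₀ : ℝ, 0 < τ₀ ∧ ∀ U : Set (GR n), U ∈ 𝓝 (1 : GR n) → ∀ τ ε : ℝ, 0 < τ → τ ≤ τ₀ → 0 < ε → ∃ C : ℝ, 0 < C ∧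
    ∀ (N : ℕ) [NeZero N] (F : Set (GR n)), IsFD F →
    ∀ (k : ℕ) (f : Fin k → GR n → XX (H N) → ℂ) (l : Fin k → ℕ → ℂ),
      (∀ i, IsForm (H N) (f i) ∧ IsL2 F (f i) ∧ IsCusp (f i) ∧ IsSlow U F (f i)) →
      (∀ i j, ip F (f i) (f j) = if i = j then 1 else 0) → (∀ i, IsEig (l i) (f i)) →
      ∀ X : ℝ, 1 ≤ X → (∀ i, ∃ p : ℕ, (p : ℝ) ≤ X ∧ Viol (n := n) N τ p (l i)) →
      (k : ℝ) ≤ C * X ^ (2 : ℝ) * sz N * (N : ℝ) ^ (ε - 2 * dd * τ)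

/-- FIN: the general theorem.

Proof (from LOWR, `S_hih`, `S_trh`, `exists_bump`). Let `η₀` be the constant of `S_hih`,
`η₁ = min(η₀, 1/(4n²))`, `τ₀ = min(η₁/(4 dd), 1/(2 n²))` (so `2 n τ₀ ≤ 1`). Given `τ ≤ τ₀` put `η = 4 dd τ ≤ η₁`. `χ` from
`exists_bump` (see `Pool/Agent/T2h79/LG/T_ASM.lean`, `T_AM1.lean` or `T_FIN.lean`). By `S_hih` all but
`C index N^(-η/2) ≤ C sz N N^(-2 dd τ)` of the forms have mass `≥ 1/8` in `SL n (C₁ N^η)`. For the others, for each prime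
`p ≤ X`, LOWR with `I` the set of those which violate at `p`: at most `C X^(2nτ) sz N N^(ε - 2 dd τ) ≤ C X sz N ...`. Sum over the
`p ≤ X` (at most `X` of them). For `N < N₀`: `S_trh`, `(1 + log N)^n ≤ C ≤ C' N^(ε - 2 dd τ)` with constants depending on
`N₀`. -/
def S_finz : Prop :=
  ∀ n : ℕ, 3 ≤ n → ∀ (H : (N : ℕ) → Subgroup (GN n N)) (dd : ℕ) (sz : ℕ → ℝ), 1 ≤ dd → (∀ N, 0 ≤ sz N) →
    (∀ (N : ℕ) [NeZero N], ((H N).index : ℝ) ≤ sz N ∧ N ≤ ixS (H N) ∧ ixS (H N) ≤ N ^ (n ^ 2)) →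
    PLS n H dd sz → Dens n H dd sz

end Pool.Agent.T2h77.Z
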