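import Pool.Agent.T2h77Z.Stm

/-!
# A density theorem for the universal family of `GL_n` over `ℚ`, level `K_1(N)`: sharper statements

At most `C X^2 N^(n - min (2 τ) ((n - 1) / n²) + ε)` members violate the bound `p^τ` at a prime `p ≤ X`, for all `τ > 0`.
-/

set_option autoImplicit false

open MeasureTheory Matrix
open scoped MatrixGroups ENNReal Topology ComplexConjugate

noncomputable section

namespace Pool.Agent.T2h77.Z

open Pool.Agent.T2h77.N Pool.Agent.T2h79.LG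

/-- SHV1: the volume of the shells.

Proof (from `S_iw`, `S_int`). On `SG n` all the ratios `ac x i / ac x j` (`i + 1 = j`) are at most `2`; on `SH n Y W` one
of the ratios `ac x j / ac x i`, `i = i₀`, `j = i₀ + 1`, is at least `Y`. The `n - 1` (or more) factors `a_i / a_j` of `wt` with
`j ≤ i₀ < i` are products of at most `n` consecutive ratios, each at least `1/2`, one of them at least `Y`, so they are at
least `2^(-n) Y`; the other factors are at least `2^(-n)`. There are `(i₀ + 1) (n - 1 - i₀) ≥ n - 1` such pairs (take for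
instance the `n - 1` pairs `(i, i₀)`, `i > i₀`, and `(i₀ + 1, j)`, `j < i₀`). So `wt (ac x) ≥ 2^(-n^3) Y^(n-1)`. Hence
`mu (SH n Y W) ≤ 2^(n^3) Y^(-(n-1)) ∫ wt (ac x)` over `SL n W`, and `S_int`. See `vol_SL`, `wt_lower` and `measurable_SH`
in `Pool.Agent.T2h77N.Asm3` and the files it imports. -/
def S_shv1 : Prop :=
  ∀ n : ℕ, 1 ≤ n → ∃ C : ℝ, 1 ≤ C ∧ ∀ Y W : ℝ, 1 ≤ Y → 1 ≤ W →
    mu n (SH n Y W) ≤ ENNReal.ofReal (C * Y⁻¹ ^ (n - 1) * (1 + Real.log W) ^ n)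

/-- FXW: the kernel of a matrix modulo `N`.

Proof. Let `g = gcd(d, N)`, `d` the content of `W`. The image `G` of `v ↦ W v` on `(ℤ/N)^n` is a finite abelian group
(an additive subgroup of `(ℤ/N)^n`) of order `N^n / #ker`. An integer `t ≥ 1` kills `G` iff `N ∣ t W_ij` for all `i, j` (apply it
to the basis vectors) iff `N ∣ t g`; so the exponent of `G` is `N / g` and `#G ≥ N / g`
(`AddMonoid.exponent_dvd_natCard`). -/
def S_fxw : Prop :=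
  ∀ (n N : ℕ) [NeZero N] (W : MZ n), W ≠ 0 → ∃ d : ℕ, 0 < d ∧ d ∣ N ∧ (∀ i j, (d : ℤ) ∣ W i j) ∧
    Nat.card {v : Fin n → ZMod N // W.map (Int.cast : ℤ → ZMod N) *ᵥ v = 0} ≤ N ^ (n - 1) * d

/-- BXW: the matrices in a box divisible by `d`.

Proof. By the first part of `S_ent` all `ac x j ≤ C ac x i` for `j ≤ i`. Put `r_ij = ac x i / ac x j`, so `r_ij ≥ 1/C` for
`j ≤ i` and `r_ij ≤ C` for `i ≤ j`. If there is a `W` in the set, then `d ≤ M r_ij` for a pair `(i₀, j₀)`. The number of the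
multiples of `d` in `[-M r, M r]` is at most `1 + 2 M r / d`, so the set has at most `∏_{i,j} (1 + 2 M r_ij / d)` elements
(an injection into a product of finite sets); the factor of `(i₀, j₀)` is at most `3 M r_{i₀j₀} / d`, the others are at most
`C' r_ij` for `j < i` and at most `C'` for `i ≤ j`. If `i₀ ≤ j₀`, use `r_{i₀j₀} ≤ C`. (`wt (ac x) = ∏_{j < i} r_ij`.) -/
def S_bxw : Prop :=
  ∀ (n : ℕ) (M : ℝ), ∃ C : ℝ, 1 ≤ C ∧ ∀ x ∈ SG n, ∀ d : ℕ, 0 < d →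
    {W : MZ n | W ≠ 0 ∧ (∀ i j, (d : ℤ) ∣ W i j) ∧ ∀ i j, |((W i j : ℤ) : ℝ)| ≤ M * (ac x i / ac x j)}.Finite ∧
    (Nat.card {W : MZ n // W ≠ 0 ∧ (∀ i j, (d : ℤ) ∣ W i j) ∧
      ∀ i j, |((W i j : ℤ) : ℝ)| ≤ M * (ac x i / ac x j)} : ℝ) ≤ C * wt (ac x) / d

/-- CNTH: the number of the pairs in the trace inequality, level `K_1(N)`.

Proof (from `S_iw`, `S_ent`, HON, FXW, BXW). Let `(1, γ) ∈ cs (H1 n N) {1} 1 M x c`, so `det γ = 1`,
`rdM N 1 • c = rdM N γ • c` and `x⁻¹ γ x` has entries at most `M` (`scl_one`, `scl γ = γ`), hence by `S_ent` (with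
`b = x⁻¹ γ x`) `|γ_ij| ≤ C (a_i / a_j)`, and `W = γ - 1` satisfies `|W_ij| ≤ (C + 1) (a_i / a_j)`. With `v = φ c` (`φ` from HON,
injective and equivariant, `rdM N γ = γ` modulo `N`) `W v = 0`. The `γ = 1` contribute `Nat.card (XX (H1 n N)) ≤ N^n`. For the
others exchange the sums: `∑_{W ≠ 0} #{c : W φ(c) = 0} ≤ ∑_{d ∣ N} N^(n-1) d #{W ≠ 0 in the box, d ∣ W}` by FXW
`≤ N^(n-1) τ(N) C wt (ac x)` by BXW, and `τ(N) ≤ C N^ε` (in the library: `Pool.Agent.T2h77N` or grep `divisors.card`). -/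
def S_cnth : Prop :=
  ∀ n : ℕ, 2 ≤ n → ∀ M ε : ℝ, 0 < ε → ∃ C : ℝ, 1 ≤ C ∧ ∀ (N : ℕ) [NeZero N] (x : GR n), x ∈ SG n →
    ∑' c : XX (H1 n N), (Nat.card (cs (H1 n N) {1} 1 M x c) : ℝ) ≤
      (N : ℝ) ^ n + C * (N : ℝ) ^ ((n : ℝ) - 1 + ε) * wt (ac x)

/-- HI1: few forms have little mass in the low region, level `K_1(N)`.

Proof (adapt `t_HIH` in `Pool/Agent/T2h79/LG/T_HIH.lean`). Let `Y = N^η`, `W'= W ixS` with `W` from `S_cut`. By `region_bound`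
(Asm1, used as in `high_bound` of Asm3, with `φ x = N^n + C N^(n-1+ε/2) wt (ac x)` from CNTH) the sum of the masses in
`SH n Y W'` is at most `C_t (N^n mu (SH n Y W') + C N^(n-1+ε/2) ∫_{SL n W'} wt)`, at most
`C (N^(n - (n-1) η) + N^(n-1+ε/2)) (1 + log W')^n` by SHV1 and `S_int`, and `(1 + log W')^n ≤ C N^(ε/2)`
(`ixS ≤ N^(n²)` by HON, `log_pow_le`). All but `16` times this many forms have mass less than `1/16` there, hence at least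
`1/8` in `SL n Y` (`mass_split`). -/
def S_hi1 : Prop :=
  ∀ n : ℕ, 3 ≤ n → ∀ (U : Set (GR n)) (χ : GR n → ℝ), Continuous χ → HasCompactSupport χ →
    (∀ g, 0 ≤ χ g) → (∀ g, χ g ≠ 0 → g ∈ U) → ∫ g, χ g ∂(mu n) = 1 → ∀ η ε : ℝ, 0 < η → 0 < ε → ∃ C : ℝ, 1 ≤ C ∧
    ∀ (N : ℕ) [NeZero N] (F : Set (GR n)), IsFD F →
    ∀ (k : ℕ) (f : Fin k → GR n → XX (H1 n N) → ℂ),
      (∀ i, IsForm (H1 n N) (f i) ∧ IsL2 F (f i) ∧ IsCusp (f i) ∧ IsSlow U F (f i)) →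
      (∀ i j, ip F (f i) (f j) = if i = j then 1 else 0) →
      ∃ I : Finset (Fin k), (I.card : ℝ) ≤ C * (N : ℝ) ^ ((n : ℝ) + ε) * ((N : ℝ) ^ (-((n - 1) * η)) + (N : ℝ) ^ (-1 : ℝ)) ∧
        ∀ i, i ∉ I → ENNReal.ofReal (1 / 8) ≤ ∫⁻ g in F ∩ sat (SL n ((N : ℝ) ^ η)), sq (Rc χ (f i)) g ∂(mu n)

/-- LOW1: the violating forms with mass in the low region.

Proof (from REG, SHV1, `vol_SL`). Let `Y = N^η` and let `J` be the least integer with `2^J ≥ Y`; for `N ≥ N₀` (depending on `η` and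
the constant `C₀` of REG for `ε/2`) `C₀ (2^(J+1))^(n²) ≤ C₀ (4Y)^(n²) ≤ N` as `η n² < 1`. The set `SL n Y` is contained in the
union of `SL n 1` and the `SH n (2^j) (2^(j+1))`, `j < J` (if `R` is the largest ratio `ac x j / ac x i`, `i + 1 = j`, and
`R > 1`, take `2^j < R ≤ 2^(j+1)`). So for `i ∈ I`, `1/8 ≤` the mass in `SL n Y` `≤` the sum of the masses in these `J + 1`
sets (`sat` of a union is the union of the `sat`s). REG for each of them: `Y^(2 n² τ) V` is at most `C` for `SL n 1`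
(`vol_SL`), and `2^((j+1) 2n²τ) C 2^(-j(n-1)) (1 + log 2^(j+1))^n ≤ 2^(n-1) C (2 + J)^n` for the shells (SHV1;
`2 n² τ ≤ n - 1`). In total `|I| ≤ C (2 + J)^(n+1) X^(2nτ) N^n N^(ε/2 - 2 τ)` and `(2 + J)^(n+1) ≤ C N^(ε/2)`
(`J ≤ C (1 + log N)`). -/
def S_low1 : Prop :=
  ∀ n : ℕ, 2 ≤ n → PLS n (fun N => H1 n N) 1 (fun N => (N : ℝ) ^ n) →
    ∀ χ : GR n → ℝ, Continuous χ → HasCompactSupport χ → ∀ ε η : ℝ, 0 < ε → 0 < η → η * n ^ 2 < 1 →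
    ∃ (C : ℝ) (N₀ : ℕ), 1 ≤ C ∧
    ∀ (N : ℕ) [NeZero N] (F : Set (GR n)), N₀ ≤ N → IsFD F →
    ∀ (k : ℕ) (f : Fin k → GR n → XX (H1 n N) → ℂ) (l : Fin k → ℕ → ℂ), Fam F f → (∀ i, IsEig (l i) (f i)) →
    ∀ (τ X : ℝ) (p : ℕ), 0 < τ → 2 * n ^ 2 * τ ≤ n - 1 → (p : ℝ) ≤ X →
    ∀ I : Finset (Fin k), (∀ i ∈ I, Viol (n := n) N τ p (l i)) →
    (∀ i ∈ I, ENNReal.ofReal (1 / 8) ≤
        ∫⁻ g in F ∩ sat (SL n ((N : ℝ) ^ η)), sq (Rc χ (f i)) g ∂(mu n)) →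
    (I.card : ℝ) ≤ C * X ^ (2 * n * τ) * (N : ℝ) ^ ((n : ℝ) - 2 * τ + ε)

/-- The main theorem for the level `K_1(N)`. -/
def S_uni : Prop :=
  ∀ n : ℕ, 3 ≤ n → ∀ U : Set (GR n), U ∈ 𝓝 (1 : GR n) → ∀ τ ε : ℝ, 0 < τ → 0 < ε → ∃ C : ℝ, 0 < C ∧
    ∀ (N : ℕ) [NeZero N] (F : Set (GR n)), IsFD F →
    ∀ (k : ℕ) (f : Fin k → GR n → XX (H1 n N) → ℂ) (l : Fin k → ℕ → ℂ),
      (∀ i, IsForm (H1 n N) (f i) ∧ IsL2 F (f i) ∧ IsCusp (f i) ∧ IsSlow U F (f i)) →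
      (∀ i j, ip F (f i) (f j) = if i = j then 1 else 0) → (∀ i, IsEig (l i) (f i)) →
      ∀ X : ℝ, 1 ≤ X → (∀ i, ∃ p : ℕ, (p : ℝ) ≤ X ∧ Viol (n := n) N τ p (l i)) →
      (k : ℝ) ≤ C * X ^ 2 * (N : ℝ) ^ ((n : ℝ) - min (2 * τ) (((n : ℝ) - 1) / n ^ 2) + ε)

/-- FIN1: the main theorem.

Proof (from PL1, LOW1, HI1, `S_trh`, HON, `exists_bump`). A form which violates `p^τ` violates `p^τ'` for all `τ' ≤ τ`, so we may
assume `2 τ ≤ (n-1)/n²` (replace `τ` by `min τ ((n-1)/(2n²))`). Then `2 n² τ ≤ n - 1` and `2 n τ ≤ 1`. `χ` from `exists_bump`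
(see `Pool/Agent/T2h79/LG/T_ASM.lean`, `T_AM1.lean` or `T_FIN.lean`). Let `η = (1 - ε')/n²` with `ε' = min(ε, 1) / 4`. By HI1 (with
`ε/2`) all but `C N^(n+ε/2) (N^(-(n-1)η) + N^(-1)) ≤ 2 C N^(n - 2τ + ε)` of the forms have mass `≥ 1/8` in `SL n (N^η)`:
`(n-1) η = (n-1)/n² - ε' (n-1)/n² ≥ 2τ - ε/2`, and `2τ ≤ 1`. For the others, for each prime `p ≤ X`, LOW1 with `I` the set of those
which violate at `p`: at most `C X^(2nτ) N^(n - 2τ + ε) ≤ C X N^(n - 2τ + ε)`. Sum over the `p ≤ X` (at most `X` of them).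
For `N < N₀`: `S_trh` with the index at most `N^n` (HON), `(1 + log N)^n` bounded, and `N^(n - 2τ + ε) ≥ 1`. -/
def S_fin1 : Prop := S_pl1 → S_low1 → S_hi1 → S_trh → S_hon → S_uni

end Pool.Agent.T2h77.Z
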