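import Pool.Agent.T2h77Z.Stm2
import Pool.Agent.T2h77N.Iw

/-!
# Task BXW (helper7): the integral matrices in a box divisible by `d`
-/

set_option autoImplicit false

open Matrix

namespace Pool.Agent.T2h77.Z

open Pool.Agent.T2h77.N Pool.Agent.T2h79.LG

namespace BXW

/-- the box -/
def Bx {n : ℕ} (M : ℝ) (a : Fin n → ℝ) (d : ℕ) : Set (MZ n) :=
  {W : MZ n | W ≠ 0 ∧ (∀ i j, (d : ℤ) ∣ W i j) ∧ ∀ i j, |((W i j : ℤ) : ℝ)| ≤ M * (a i / a j)}

/-- the matrices in the box as a subset of a product -/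
theorem inj {n : ℕ} (M : ℝ) (a : Fin n → ℝ) (d : ℕ) (hd : 0 < d) :
    (Bx M a d).Finite ∧ (Bx M a d).ncard ≤ ∏ p : Fin n × Fin n, (2 * ⌊M * (a p.1 / a p.2) / d⌋₊ + 1) := by
  classical
  obtain ⟨T, hT⟩ : ∃ T : Finset (Fin n × Fin n → ℤ), T = Fintype.piFinset fun p : Fin n × Fin n =>
    Finset.Icc (-(⌊M * (a p.1 / a p.2) / d⌋₊ : ℤ)) (⌊M * (a p.1 / a p.2) / d⌋₊ : ℤ) := ⟨_, rfl⟩
  have hTc : T.card = ∏ p : Fin n × Fin n, (2 * ⌊M * (a p.1 / a p.2) / d⌋₊ + 1) := by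
    rw [hT, Fintype.card_piFinset]
    refine Finset.prod_congr rfl fun p _ => ?_
    rw [Int.card_Icc]
    omega
  have hd0 : (0 : ℝ) < d := by exact_mod_cast hd
  have hmaps : ∀ W ∈ Bx M a d, (fun p : Fin n × Fin n => W p.1 p.2 / (d : ℤ)) ∈ (T : Set _) := by
    intro W hW
    rw [Finset.mem_coe, hT, Fintype.mem_piFinset]
    intro p
    obtain ⟨k, hk⟩ := hW.2.1 p.1 p.2
    have hk' : W p.1 p.2 / (d : ℤ) = k := by
      rw [hk]
      exact Int.mul_ediv_cancel_left _ (by exact_mod_cast hd.ne')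
    have h1 := hW.2.2 p.1 p.2
    rw [hk] at h1
    push_cast at h1
    rw [abs_mul, abs_of_pos hd0] at h1
    have h2 : ((k.natAbs : ℕ) : ℝ) ≤ M * (a p.1 / a p.2) / d := by
      rw [le_div_iff₀ hd0, Nat.cast_natAbs, Int.cast_abs]
      linarith
    have h3 := Nat.le_floor h2
    rw [hk', Finset.mem_Icc]
    omega
  have hinj : Set.InjOn (fun (W : MZ n) (p : Fin n × Fin n) => W p.1 p.2 / (d : ℤ)) (Bx M a d) := by
    intro W hW W' hW' h
    ext i j
    have h1 := congrFun h (i, j)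
    have h2 := hW.2.1 i j
    have h3 := hW'.2.1 i j
    change W i j / (d : ℤ) = W' i j / (d : ℤ) at h1
    rw [← Int.ediv_mul_cancel h2, ← Int.ediv_mul_cancel h3, h1]
  refine ⟨Set.Finite.of_injOn hmaps hinj T.finite_toSet, ?_⟩
  rw [← hTc, ← Set.ncard_coe_finset]
  exact Set.ncard_le_ncard_of_injOn _ hmaps hinj T.finite_toSet

/-- the factors of the weight -/
noncomputable def tt {n : ℕ} (a : Fin n → ℝ) (p : Fin n × Fin n) : ℝ := if p.2 < p.1 then a p.1 / a p.2 else 1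

theorem wt_eq {n : ℕ} (a : Fin n → ℝ) : wt a = ∏ p : Fin n × Fin n, tt a p := by
  unfold wt
  rw [Fintype.prod_prod_type]
  rfl

theorem bound {n : ℕ} (M : ℝ) (hM : 0 ≤ M) (a : Fin n → ℝ) (ha : ∀ i, 0 < a i) (K : ℝ) (hK : 1 ≤ K)
    (hKa : ∀ i j : Fin n, j ≤ i → a j ≤ K * a i) (d : ℕ) (hd : 0 < d) :
    (Bx M a d).Finite ∧ ((Bx M a d).ncard : ℝ) ≤ (K + 3 * M * K + 1) ^ (n ^ 2) * wt a / d := by
  classical
  obtain ⟨h1, h2⟩ := inj M a d hd
  refine ⟨h1, ?_⟩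
  have hd0 : (0 : ℝ) < d := by exact_mod_cast hd
  have hd1 : (1 : ℝ) ≤ d := by exact_mod_cast hd
  obtain ⟨C, hC⟩ : ∃ C : ℝ, C = K + 3 * M * K + 1 := ⟨_, rfl⟩
  have hMK : 0 ≤ M * K := by positivity
  have hC1 : 1 ≤ C := by rw [hC]; nlinarith
  have hr : ∀ p : Fin n × Fin n, 0 < a p.1 / a p.2 := fun p => div_pos (ha _) (ha _)
  have ht : ∀ p : Fin n × Fin n, 0 < tt a p := fun p => by
    unfold tt
    split_ifs
    · exact hr p
    · exact one_pos
  -- comparison of the ratios with the factors of the weight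
  have hrt : ∀ p : Fin n × Fin n, a p.1 / a p.2 ≤ K * tt a p := by
    intro p
    unfold tt
    split_ifs with hp
    · nlinarith [hr p]
    · rw [mul_one, div_le_iff₀ (ha _)]
      exact hKa _ _ (not_lt.1 hp)
  have h1t : ∀ p : Fin n × Fin n, 1 ≤ K * tt a p := by
    intro p
    unfold tt
    split_ifs with hp
    · rw [← mul_div_assoc, le_div_iff₀ (ha _), one_mul]
      exact hKa _ _ hp.le
    · linarith
  rcases (Bx M a d).eq_empty_or_nonempty with he | ⟨W, hW⟩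
  · rw [he, Set.ncard_empty, Nat.cast_zero, wt_eq]
    exact div_nonneg (mul_nonneg (by positivity) (Finset.prod_nonneg fun p _ => (ht p).le)) hd0.le
  · obtain ⟨i₀, j₀, hij⟩ : ∃ i j, W i j ≠ 0 := by
      by_contra hcon
      push Not at hcon
      exact hW.1 (by ext i j; exact hcon i j)
    have hbig : 1 ≤ M * (a i₀ / a j₀) / d := by
      rw [le_div_iff₀ hd0, one_mul]
      refine le_trans ?_ (hW.2.2 i₀ j₀)
      have h3 := Int.le_of_dvd (abs_pos.2 hij) ((dvd_abs _ _).2 (hW.2.1 i₀ j₀))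
      exact_mod_cast h3
    have hfac : ∀ p : Fin n × Fin n, ((2 * ⌊M * (a p.1 / a p.2) / d⌋₊ + 1 : ℕ) : ℝ) ≤ C * tt a p := by
      intro p
      have h3 : ((⌊M * (a p.1 / a p.2) / d⌋₊ : ℕ) : ℝ) ≤ M * (a p.1 / a p.2) / d :=
        Nat.floor_le (by have := hr p; positivity)
      have h4 : M * (a p.1 / a p.2) / d ≤ M * (a p.1 / a p.2) :=
        div_le_self (by have := hr p; positivity) hd1
      have h5 : M * (a p.1 / a p.2) ≤ M * (K * tt a p) := mul_le_mul_of_nonneg_left (hrt p) hM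
      have h6 := h1t p
      have h7 : 0 ≤ M * (K * tt a p) := by have := ht p; positivity
      push_cast
      rw [hC]
      have h8 := ht p
      nlinarith
    have hfac0 : ((2 * ⌊M * (a i₀ / a j₀) / d⌋₊ + 1 : ℕ) : ℝ) ≤ C * tt a (i₀, j₀) / d := by
      have h3 : ((⌊M * (a i₀ / a j₀) / d⌋₊ : ℕ) : ℝ) ≤ M * (a i₀ / a j₀) / d :=
        Nat.floor_le (by have := hr (i₀, j₀); positivity)
      have h5 : M * (a i₀ / a j₀) ≤ M * (K * tt a (i₀, j₀)) := mul_le_mul_of_nonneg_left (hrt (i₀, j₀)) hM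
      have h8 := ht (i₀, j₀)
      have h9 : 3 * (M * (a i₀ / a j₀) / d) ≤ C * tt a (i₀, j₀) / d := by
        rw [← mul_div_assoc]
        apply div_le_div_of_nonneg_right _ hd0.le
        rw [hC]
        have h10 : 0 ≤ (K + 1) * tt a (i₀, j₀) := by positivity
        nlinarith
      push_cast
      linarith
    have h3 : ((Bx M a d).ncard : ℝ) ≤ ∏ p : Fin n × Fin n, ((2 * ⌊M * (a p.1 / a p.2) / d⌋₊ + 1 : ℕ) : ℝ) := by
      exact_mod_cast h2
    refine h3.trans ?_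
    rw [← Finset.mul_prod_erase Finset.univ _ (Finset.mem_univ (i₀, j₀))]
    have h4 : ∏ p ∈ Finset.univ.erase (i₀, j₀), ((2 * ⌊M * (a p.1 / a p.2) / d⌋₊ + 1 : ℕ) : ℝ) ≤
        ∏ p ∈ Finset.univ.erase (i₀, j₀), (C * tt a p) :=
      Finset.prod_le_prod (fun _ _ => Nat.cast_nonneg _) fun p _ => hfac p
    have h5 : 0 ≤ ∏ p ∈ Finset.univ.erase (i₀, j₀), (C * tt a p) :=
      Finset.prod_nonneg fun p _ => mul_nonneg (by linarith) (ht p).le
    calc ((2 * ⌊M * (a (i₀, j₀).1 / a (i₀, j₀).2) / d⌋₊ + 1 : ℕ) : ℝ) *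
          ∏ p ∈ Finset.univ.erase (i₀, j₀), ((2 * ⌊M * (a p.1 / a p.2) / d⌋₊ + 1 : ℕ) : ℝ)
        ≤ (C * tt a (i₀, j₀) / d) * ∏ p ∈ Finset.univ.erase (i₀, j₀), (C * tt a p) :=
          mul_le_mul hfac0 h4 (Finset.prod_nonneg fun _ _ => Nat.cast_nonneg _)
            (div_nonneg (mul_nonneg (by linarith) (ht _).le) hd0.le)
      _ = (∏ p : Fin n × Fin n, (C * tt a p)) / d := by
          rw [← Finset.mul_prod_erase Finset.univ (fun p => C * tt a p) (Finset.mem_univ (i₀, j₀))]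
          ring
      _ = C ^ (n ^ 2) * wt a / d := by
          rw [Finset.prod_mul_distrib, Finset.prod_const, Finset.card_univ, Fintype.card_prod,
            Fintype.card_fin, wt_eq, pow_two]
      _ = _ := by rw [hC]

end BXW

open BXW in
theorem t_BXW (hent : S_ent) : S_bxw := by
  intro n M
  obtain ⟨K, hK, hx⟩ := hent n 0
  obtain ⟨M', hM', hMM'⟩ : ∃ M' : ℝ, 0 ≤ M' ∧ M ≤ M' := ⟨max M 0, le_max_right _ _, le_max_left _ _⟩
  refine ⟨(K + 3 * M' * K + 1) ^ (n ^ 2), one_le_pow₀ (by nlinarith [mul_nonneg hM' (by linarith : (0:ℝ) ≤ K)]),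
    fun x hxS d hd => ?_⟩
  have ha := iw_ac_pos x
  obtain ⟨h1, h2⟩ := bound M' hM' (ac x) ha K hK (hx x hxS).1 d hd
  have hsub : Bx M (ac x) d ⊆ Bx M' (ac x) d := fun W hW => ⟨hW.1, hW.2.1, fun i j =>
    (hW.2.2 i j).trans (mul_le_mul_of_nonneg_right hMM' (div_nonneg (ha i).le (ha j).le))⟩
  refine ⟨h1.subset hsub, ?_⟩
  have h3 : Nat.card {W : MZ n // W ≠ 0 ∧ (∀ i j, (d : ℤ) ∣ W i j) ∧
      ∀ i j, |((W i j : ℤ) : ℝ)| ≤ M * (ac x i / ac x j)} = (Bx M (ac x) d).ncard := rfl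
  rw [h3]
  refine le_trans ?_ h2
  exact_mod_cast Set.ncard_le_ncard hsub h1

end Pool.Agent.T2h77.Z
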