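import Pool.Agent.T2h77Z.Stm2
import Pool.Agent.T2h77N.Api
import Pool.Agent.H510R2.Div

/-!
# Task CNTH (helper7): the number of the pairs in the trace inequality, level `K_1(N)`
-/

set_option autoImplicit false

open Matrix

noncomputable section

namespace Pool.Agent.T2h77.Z

open Pool.Agent.T2h77.N Pool.Agent.T2h79.LG

namespace CNTH

instance (n N : ℕ) [NeZero N] : Finite (GN n N) := inferInstanceAs (Finite (Matrix (Fin n) (Fin n) (ZMod N))ˣ)

/-- the box -/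
def Bx {n : ℕ} (M : ℝ) (a : Fin n → ℝ) (d : ℕ) : Set (MZ n) :=
  {W : MZ n | W ≠ 0 ∧ (∀ i j, (d : ℤ) ∣ W i j) ∧ ∀ i j, |((W i j : ℤ) : ℝ)| ≤ M * (a i / a j)}

/-- the members of `cs` -/
theorem cs_sub (hiw : S_iw) {n N : ℕ} [NeZero N] (M C₁ : ℝ) (hC₁ : 1 ≤ C₁) (x : GR n)
    (hx : ∀ b : GR n, (∀ i j, |b i j| ≤ M) → ∀ i j, |(x * b * x⁻¹) i j| ≤ C₁ * (ac x i / ac x j))
    (φ : XX (H1 n N) → (Fin n → ZMod N))
    (hφ : ∀ (h : GN n N) (c : XX (H1 n N)), φ (h • c) = (h : Matrix (Fin n) (Fin n) (ZMod N)) *ᵥ φ c)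
    (c : XX (H1 n N)) (q : MZ n × MZ n) (hq : q ∈ cs (H1 n N) {1} 1 M x c) :
    q.1 = 1 ∧ (∀ i j, |(((q.2 - 1) i j : ℤ) : ℝ)| ≤ (C₁ + 1) * (ac x i / ac x j)) ∧
      (q.2 - 1).map (Int.cast : ℤ → ZMod N) *ᵥ φ c = 0 := by
  obtain ⟨h1, h2, h3, h4⟩ := hq
  rw [Finset.mem_singleton] at h1
  obtain ⟨γ, hγ⟩ : ∃ γ : GZ n, q.2 = (γ : MZ n) := ⟨⟨q.2, h2⟩, rfl⟩
  have ha := fun i => (hiw n).1 x i
  refine ⟨h1, fun i j => ?_, ?_⟩
  · have e1 : scl (1 : MZ n) = 1 := by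
      have := scl_coe (1 : GZ n)
      rw [Matrix.SpecialLinearGroup.coe_one, map_one] at this
      exact this
    have h5 := hx (x⁻¹ * scl q.2 * x) (fun i j => by
      have := h4 i j
      rwa [h1, e1, inv_one, mul_one] at this) i j
    have e2 : x * (x⁻¹ * scl q.2 * x) * x⁻¹ = scl q.2 := by group
    rw [e2, hγ, scl_coe] at h5
    have e3 : (io n γ) i j = (((γ : MZ n) i j : ℤ) : ℝ) := rfl
    rw [e3] at h5
    have hr : 0 ≤ ac x i / ac x j := div_nonneg (ha i).le (ha j).le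
    rw [hγ, Matrix.sub_apply]
    push_cast
    have h6 : |((1 : MZ n) i j : ℝ)| ≤ ac x i / ac x j := by
      rw [Matrix.one_apply]
      split_ifs with hij
      · subst hij
        rw [div_self (ha i).ne']
        simp
      · simpa using hr
    calc |(((γ : MZ n) i j : ℤ) : ℝ) - ((1 : MZ n) i j : ℝ)|
        ≤ |(((γ : MZ n) i j : ℤ) : ℝ)| + |((1 : MZ n) i j : ℝ)| := abs_sub _ _
      _ ≤ C₁ * (ac x i / ac x j) + ac x i / ac x j := add_le_add h5 h6
      _ = _ := by ring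
  · have h5 := congrArg φ h3
    rw [h1, hφ, hφ, rdM_one', Units.val_one, Matrix.one_mulVec, hγ, rdM_val (isUnit_det_coe N γ)] at h5
    rw [hγ]
    have e4 : ((γ : MZ n) - 1).map (Int.cast : ℤ → ZMod N) =
        (γ : MZ n).map (Int.cast : ℤ → ZMod N) - 1 := by
      ext i j
      rw [Matrix.map_apply, Matrix.sub_apply, Matrix.sub_apply, Matrix.map_apply, Int.cast_sub,
        Matrix.one_apply, Matrix.one_apply]
      split_ifs <;> simp
    rw [e4, Matrix.sub_mulVec, Matrix.one_mulVec, ← h5, sub_self]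

end CNTH

open CNTH in
theorem t_CNTH (hiw : S_iw) (hent : S_ent) (hhon : S_hon) (hfxw : S_fxw) (hbxw : S_bxw) : S_cnth := by
  classical
  intro n hn M ε hε
  obtain ⟨C₁, hC₁, hx⟩ := hent n M
  obtain ⟨C₂, hC₂, hbx⟩ := hbxw n (C₁ + 1)
  obtain ⟨C₃, hC₃, hdiv⟩ := Pool.Agent.H510R2.divisor_bound ε hε
  refine ⟨max 1 (C₂ * C₃), le_max_left _ _, fun N _ x hxS => ?_⟩
  have hN : 0 < N := Nat.pos_of_ne_zero (NeZero.ne N)
  have hN0 : (0 : ℝ) < N := by exact_mod_cast hN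
  obtain ⟨hidx, _, _, φ, hφi, _, hφ⟩ := hhon n N hn
  have hfinX : Finite (XX (H1 n N)) := Quotient.finite _
  have hft : Fintype (XX (H1 n N)) := Fintype.ofFinite _
  have hwt : 0 ≤ wt (ac x) := by
    unfold wt
    refine Finset.prod_nonneg fun i _ => Finset.prod_nonneg fun j _ => ?_
    split_ifs
    · exact div_nonneg ((hiw n).1 x i).le ((hiw n).1 x j).le
    · exact zero_le_one
  -- the matrices in the box
  obtain ⟨B, hB⟩ : ∃ B : Finset (MZ n), ∀ W, W ∈ B ↔ (W ≠ 0 ∧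
      ∀ i j, |((W i j : ℤ) : ℝ)| ≤ (C₁ + 1) * (ac x i / ac x j)) := by
    refine ⟨(hbx x hxS 1 one_pos).1.toFinset, fun W => ?_⟩
    rw [Set.Finite.mem_toFinset]
    constructor
    · rintro ⟨h1, _, h2⟩
      exact ⟨h1, h2⟩
    · rintro ⟨h1, h2⟩
      exact ⟨h1, fun i j => by simp, h2⟩
  have hBd : ∀ d : ℕ, 0 < d → (((B.filter fun W => ∀ i j, (d : ℤ) ∣ W i j).card : ℕ) : ℝ) ≤
      C₂ * wt (ac x) / d := by
    intro d hd
    refine le_trans (le_of_eq ?_) (hbx x hxS d hd).2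
    rw [← Fintype.card_coe, ← Nat.card_eq_fintype_card]
    congr 1
    refine Nat.card_congr (Equiv.subtypeEquivRight fun W => ?_)
    rw [Finset.mem_filter, hB]
    tauto
  obtain ⟨P, hP⟩ : ∃ P : XX (H1 n N) → MZ n → Prop, ∀ c W, P c W ↔
    W.map (Int.cast : ℤ → ZMod N) *ᵥ φ c = 0 := ⟨_, fun _ _ => Iff.rfl⟩
  -- the count for one `c`
  have h1 : ∀ c, (Nat.card (cs (H1 n N) {1} 1 M x c) : ℝ) ≤ 1 + ((B.filter fun W => P c W).card : ℝ) := by
    intro c
    have h2 : Nat.card (cs (H1 n N) {1} 1 M x c) ≤ Nat.card (insert 0 (B.filter fun W => P c W) : Finset (MZ n)) := by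
      refine Nat.card_le_card_of_injective
        (fun q : cs (H1 n N) {1} 1 M x c => (⟨q.1.2 - 1, ?_⟩ : (insert 0 (B.filter fun W => P c W) : Finset (MZ n)))) ?_
      · obtain ⟨_, h4, h5⟩ := cs_sub hiw M C₁ hC₁ x (hx x hxS).2 φ hφ c q.1 q.2
        rw [Finset.mem_insert]
        by_cases h0 : q.1.2 - 1 = 0
        · exact Or.inl h0
        · right
          rw [Finset.mem_filter, hB, hP]
          exact ⟨⟨h0, h4⟩, h5⟩
      · intro q q' h
        have h6 : q.1.2 - 1 = q'.1.2 - 1 := congrArg Subtype.val h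
        have h7 := (cs_sub hiw M C₁ hC₁ x (hx x hxS).2 φ hφ c q.1 q.2).1
        have h8 := (cs_sub hiw M C₁ hC₁ x (hx x hxS).2 φ hφ c q'.1 q'.2).1
        apply Subtype.ext
        exact Prod.ext (h7.trans h8.symm) (sub_left_injective h6)
    have h2' : Nat.card (insert 0 (B.filter fun W => P c W) : Finset (MZ n)) =
        (insert 0 (B.filter fun W => P c W) : Finset (MZ n)).card :=
      Nat.card_eq_fintype_card.trans (Fintype.card_coe _)
    rw [h2'] at h2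
    have h3 := h2.trans (Finset.card_insert_le _ _)
    have h4 : (Nat.card (cs (H1 n N) {1} 1 M x c) : ℝ) ≤ ((B.filter fun W => P c W).card + 1 : ℕ) := by
      exact_mod_cast h3
    push_cast at h4
    linarith
  -- the count for one matrix
  have h2 : ∀ W ∈ B, ∃ d ∈ N.divisors, (∀ i j, (d : ℤ) ∣ W i j) ∧
      ((Finset.univ.filter fun c => P c W).card : ℝ) ≤ (N : ℝ) ^ (n - 1) * d := by
    intro W hW
    obtain ⟨d, hd0, hdN, hdW, hcard⟩ := hfxw n N W ((hB W).1 hW).1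
    refine ⟨d, Nat.mem_divisors.2 ⟨hdN, hN.ne'⟩, hdW, ?_⟩
    have h3 : (Finset.univ.filter fun c => P c W).card ≤
        Nat.card {v : Fin n → ZMod N // W.map (Int.cast : ℤ → ZMod N) *ᵥ v = 0} := by
      rw [← Fintype.card_coe, ← Nat.card_eq_fintype_card]
      refine Nat.card_le_card_of_injective (fun c => ⟨φ c.1, (hP _ _).1 (Finset.mem_filter.1 c.2).2⟩) ?_
      intro c c' h
      exact Subtype.ext (hφi (congrArg Subtype.val h))
    exact_mod_cast h3.trans hcard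
  choose! dd hddN hddW hddc using h2
  have hidxR : (Fintype.card (XX (H1 n N)) : ℝ) ≤ (N : ℝ) ^ n := by
    rw [← Nat.card_eq_fintype_card]
    exact_mod_cast hidx
  have hpow : (N : ℝ) ^ (n - 1) = (N : ℝ) ^ ((n : ℝ) - 1) := by
    rw [← Real.rpow_natCast, Nat.cast_sub (by omega : 1 ≤ n)]
    simp
  calc ∑' c : XX (H1 n N), (Nat.card (cs (H1 n N) {1} 1 M x c) : ℝ)
      = ∑ c : XX (H1 n N), (Nat.card (cs (H1 n N) {1} 1 M x c) : ℝ) := tsum_fintype _
    _ ≤ ∑ c : XX (H1 n N), (1 + ((B.filter fun W => P c W).card : ℝ)) := Finset.sum_le_sum fun c _ => h1 c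
    _ = (Fintype.card (XX (H1 n N)) : ℝ) + ∑ c : XX (H1 n N), ((B.filter fun W => P c W).card : ℝ) := by
        rw [Finset.sum_add_distrib, Finset.sum_const, Finset.card_univ, nsmul_eq_mul, mul_one]
    _ = (Fintype.card (XX (H1 n N)) : ℝ) + ∑ W ∈ B, ((Finset.univ.filter fun c => P c W).card : ℝ) := by
        congr 1
        simp only [Finset.card_filter, Nat.cast_sum]
        exact Finset.sum_comm
    _ ≤ (N : ℝ) ^ n + ∑ W ∈ B, (N : ℝ) ^ (n - 1) * dd W :=
        add_le_add hidxR (Finset.sum_le_sum fun W hW => hddc W hW)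
    _ ≤ (N : ℝ) ^ n + ∑ W ∈ B, ∑ d ∈ N.divisors, if ∀ i j, (d : ℤ) ∣ W i j then (N : ℝ) ^ (n - 1) * d else 0 := by
        gcongr with W hW
        have h3 := Finset.single_le_sum (f := fun d : ℕ => if ∀ i j, (d : ℤ) ∣ W i j then (N : ℝ) ^ (n - 1) * d else 0)
          (fun d _ => by split_ifs <;> positivity) (hddN W hW)
        simp only [if_pos (hddW W hW)] at h3
        exact h3
    _ = (N : ℝ) ^ n + ∑ d ∈ N.divisors, (N : ℝ) ^ (n - 1) * d *
          ((B.filter fun W => ∀ i j, (d : ℤ) ∣ W i j).card : ℝ) := by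
        congr 1
        rw [Finset.sum_comm]
        refine Finset.sum_congr rfl fun d _ => ?_
        rw [← Finset.sum_filter, Finset.sum_const, nsmul_eq_mul]
        ring
    _ ≤ (N : ℝ) ^ n + ∑ d ∈ N.divisors, (N : ℝ) ^ (n - 1) * (C₂ * wt (ac x)) := by
        refine add_le_add le_rfl (Finset.sum_le_sum fun d hd => ?_)
        have hd0 : 0 < d := Nat.pos_of_mem_divisors hd
        have hd1 : (0 : ℝ) < d := by exact_mod_cast hd0
        calc (N : ℝ) ^ (n - 1) * d * ((B.filter fun W => ∀ i j, (d : ℤ) ∣ W i j).card : ℝ)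
            ≤ (N : ℝ) ^ (n - 1) * d * (C₂ * wt (ac x) / d) :=
              mul_le_mul_of_nonneg_left (hBd d hd0) (by positivity)
          _ = _ := by field_simp
    _ = (N : ℝ) ^ n + (N.divisors.card : ℝ) * ((N : ℝ) ^ (n - 1) * (C₂ * wt (ac x))) := by
        rw [Finset.sum_const, nsmul_eq_mul]
    _ ≤ (N : ℝ) ^ n + (C₃ * (N : ℝ) ^ ε) * ((N : ℝ) ^ (n - 1) * (C₂ * wt (ac x))) := by
        have := mul_le_mul_of_nonneg_right (hdiv N hN)
          (show 0 ≤ (N : ℝ) ^ (n - 1) * (C₂ * wt (ac x)) by positivity)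
        linarith
    _ = (N : ℝ) ^ n + (C₂ * C₃) * (N : ℝ) ^ ((n : ℝ) - 1 + ε) * wt (ac x) := by
        rw [Real.rpow_add hN0, hpow]
        ring
    _ ≤ _ := by
        have h3 : 0 ≤ (N : ℝ) ^ ((n : ℝ) - 1 + ε) * wt (ac x) := by positivity
        have h4 := mul_le_mul_of_nonneg_right (le_max_right 1 (C₂ * C₃)) h3
        linarith

end Pool.Agent.T2h77.Z
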