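import Pool.Agent.T2h77Z.Stm2

/-!
# FIN1: the density theorem for the universal family, final assembly
-/

set_option autoImplicit false

open MeasureTheory Matrix
open scoped MatrixGroups ENNReal Topology ComplexConjugate

noncomputable section

namespace Pool.Agent.T2h77.Z

open Pool.Agent.T2h77.N Pool.Agent.T2h79.LG

theorem Viol.mono {n N p : ℕ} {τ τ' : ℝ} {l : ℕ → ℂ} (h : τ' ≤ τ) (hv : Viol (n := n) N τ p l) :
    Viol (n := n) N τ' p l := by
  obtain ⟨hp, hpN, α, hα, j, hj⟩ := hv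
  have hp1 : (1 : ℝ) ≤ p := by exact_mod_cast hp.one_lt.le
  exact ⟨hp, hpN, α, hα, j, (Real.rpow_le_rpow_of_exponent_le hp1 h).trans hj⟩

theorem t_FIN1 : S_fin1 := by
  classical
  intro hpl hlow hhi htrh hhon n hn U hU τ₀ ε hτ₀ hε
  obtain ⟨χ, hχ1, hχ2, hχ3, hχ4, hχ5⟩ := exists_bump n hU
  have hn3 : (3 : ℝ) ≤ n := by exact_mod_cast hn
  have hn0 : (0 : ℝ) < (n : ℝ) ^ 2 := by positivity
  set κ : ℝ := ((n : ℝ) - 1) / n ^ 2 with hκ
  have hκ0 : 0 < κ := div_pos (by linarith) hn0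
  have hκn : κ * n ^ 2 = n - 1 := div_mul_cancel₀ _ hn0.ne'
  have hκ1 : κ ≤ 1 := by
    rw [hκ, div_le_one hn0]
    nlinarith
  set τ : ℝ := min τ₀ (κ / 2) with hτd
  have hτ : 0 < τ := lt_min hτ₀ (half_pos hκ0)
  have h2τ : 2 * τ = min (2 * τ₀) κ := by
    rw [hτd, mul_min_of_nonneg _ _ (by norm_num : (0 : ℝ) ≤ 2)]
    congr 1
    ring
  have hτκ : 2 * τ ≤ κ := by
    rw [h2τ]
    exact min_le_right _ _
  set ε' : ℝ := min ε 1 / 4 with hε'
  have hε'0 : 0 < ε' := by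
    have : 0 < min ε 1 := lt_min hε one_pos
    positivity
  have hε'1 : ε' ≤ ε / 4 := by
    have := min_le_left ε (1 : ℝ)
    rw [hε']; linarith
  have hε'2 : ε' ≤ 1 / 4 := by
    have := min_le_right ε (1 : ℝ)
    rw [hε']; linarith
  set η : ℝ := (1 - ε') / n ^ 2 with hη
  have hη0 : 0 < η := div_pos (by linarith) hn0
  have hηn : η * n ^ 2 = 1 - ε' := div_mul_cancel₀ _ hn0.ne'
  have hηκ : ((n : ℝ) - 1) * η = κ * (1 - ε') := by
    rw [hη, hκ]
    ring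
  obtain ⟨C₂, N₀, hC₂, h2⟩ := hlow n (by omega) (hpl n (by omega)) χ hχ1 hχ2 ε η hε hη0 (by rw [hηn]; linarith)
  obtain ⟨C₁, hC₁, h1⟩ := hhi n hn U χ hχ1 hχ2 hχ3 hχ4 hχ5 η (ε / 2) hη0 (half_pos hε)
  obtain ⟨C₃, hC₃, h5⟩ := htrh n hn U hU
  set M : ℝ := max 1 (N₀ : ℝ) with hM
  have hM1 : 1 ≤ M := le_max_left _ _
  have hlM := Real.log_nonneg hM1
  have hC3' : 0 ≤ C₃ * M ^ n * (1 + Real.log M) ^ n := by positivity
  refine ⟨2 * C₁ + C₂ + C₃ * M ^ n * (1 + Real.log M) ^ n, by positivity, ?_⟩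
  intro N _ F hF k f l hf hon heig X hX hv
  rw [← h2τ]
  obtain ⟨hi1, hi2, hi3, -⟩ := hhon n N (by omega)
  have hN1 : (1 : ℝ) ≤ N := by exact_mod_cast NeZero.one_le
  have hN0 : (0 : ℝ) < N := by linarith
  have hv' : ∀ i, ∃ p : ℕ, (p : ℝ) ≤ X ∧ Viol (n := n) N τ p (l i) := by
    intro i
    obtain ⟨p, hp, hpv⟩ := hv i
    exact ⟨p, hp, hpv.mono (min_le_left _ _)⟩
  set P : ℝ := (N : ℝ) ^ ((n : ℝ) - 2 * τ + ε) with hP
  have hP1 : 1 ≤ P := Real.one_le_rpow hN1 (by linarith)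
  have hX2 : 1 ≤ X ^ 2 := one_le_pow₀ hX
  by_cases hNN : N₀ ≤ N
  · obtain ⟨I, hI, hI'⟩ := h1 N F hF k f hf hon
    have hfam : Fam F f := ⟨fun i => (hf i).1, fun i => (hf i).2.1, hon⟩
    have h7 : (k : ℝ) = (I.card : ℝ) + (Iᶜ.card : ℝ) := by
      have := Finset.card_add_card_compl I
      rw [Fintype.card_fin] at this
      exact_mod_cast this.symm
    have hIb : (I.card : ℝ) ≤ 2 * C₁ * P := by
      have e1 : (N : ℝ) ^ ((n : ℝ) + ε / 2) * (N : ℝ) ^ (-((n - 1) * η)) ≤ P := by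
        rw [← Real.rpow_add hN0]
        refine Real.rpow_le_rpow_of_exponent_le hN1 ?_
        rw [hηκ]
        nlinarith
      have e2 : (N : ℝ) ^ ((n : ℝ) + ε / 2) * (N : ℝ) ^ (-1 : ℝ) ≤ P := by
        rw [← Real.rpow_add hN0]
        refine Real.rpow_le_rpow_of_exponent_le hN1 ?_
        linarith
      calc (I.card : ℝ) ≤ C₁ * (N : ℝ) ^ ((n : ℝ) + ε / 2) *
            ((N : ℝ) ^ (-((n - 1) * η)) + (N : ℝ) ^ (-1 : ℝ)) := hI
        _ = C₁ * ((N : ℝ) ^ ((n : ℝ) + ε / 2) * (N : ℝ) ^ (-((n - 1) * η)) +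
            (N : ℝ) ^ ((n : ℝ) + ε / 2) * (N : ℝ) ^ (-1 : ℝ)) := by ring
        _ ≤ C₁ * (P + P) := by gcongr
        _ = _ := by ring
    set J : ℕ → Finset (Fin k) := fun p => (Iᶜ).filter fun i => Viol (n := n) N τ p (l i) with hJ
    have hcov : Iᶜ ⊆ (Finset.Icc 1 ⌊X⌋₊).biUnion J := by
      intro i hi
      obtain ⟨p, hp, hpv⟩ := hv' i
      rw [Finset.mem_biUnion]
      exact ⟨p, Finset.mem_Icc.2 ⟨hpv.1.one_lt.le, Nat.le_floor hp⟩, Finset.mem_filter.2 ⟨hi, hpv⟩⟩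
    have hJb : ∀ p ∈ Finset.Icc 1 ⌊X⌋₊, ((J p).card : ℝ) ≤ C₂ * X * P := by
      intro p hp
      rw [Finset.mem_Icc] at hp
      have hpX : (p : ℝ) ≤ X := (Nat.cast_le.2 hp.2).trans (Nat.floor_le (by linarith))
      have h8 := h2 N F hNN hF k f l hfam heig τ X p hτ
        (by
          calc 2 * (n : ℝ) ^ 2 * τ = 2 * τ * n ^ 2 := by ring
            _ ≤ κ * n ^ 2 := by gcongr
            _ = n - 1 := hκn) hpX (J p) (fun i hi => (Finset.mem_filter.1 hi).2)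
        (fun i hi => hI' i (by simpa using (Finset.mem_filter.1 hi).1))
      refine h8.trans ?_
      have h9 : X ^ (2 * n * τ) ≤ X := by
        conv_rhs => rw [← Real.rpow_one X]
        refine Real.rpow_le_rpow_of_exponent_le hX ?_
        have : 2 * n * τ ≤ κ * n := by nlinarith
        have h10 : κ * n ≤ 1 := by
          rw [hκ, div_mul_eq_mul_div, div_le_one hn0]
          nlinarith
        linarith
      gcongr
    have hIc : (Iᶜ.card : ℝ) ≤ C₂ * X ^ 2 * P := by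
      have h8 : Iᶜ.card ≤ ∑ p ∈ Finset.Icc 1 ⌊X⌋₊, (J p).card :=
        (Finset.card_le_card hcov).trans Finset.card_biUnion_le
      calc (Iᶜ.card : ℝ) ≤ ∑ p ∈ Finset.Icc 1 ⌊X⌋₊, ((J p).card : ℝ) := by exact_mod_cast h8
        _ ≤ ∑ _p ∈ Finset.Icc 1 ⌊X⌋₊, C₂ * X * P := Finset.sum_le_sum hJb
        _ = (⌊X⌋₊ : ℝ) * (C₂ * X * P) := by
            rw [Finset.sum_const, nsmul_eq_mul, Nat.card_Icc]
            norm_num
        _ ≤ X * (C₂ * X * P) := by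
            gcongr
            exact Nat.floor_le (by linarith)
        _ = _ := by ring
    calc (k : ℝ) = (I.card : ℝ) + (Iᶜ.card : ℝ) := h7
      _ ≤ 2 * C₁ * P + C₂ * X ^ 2 * P := add_le_add hIb hIc
      _ ≤ 2 * C₁ * P * X ^ 2 + C₂ * X ^ 2 * P := by
          have : 0 ≤ 2 * C₁ * P := by positivity
          nlinarith
      _ = (2 * C₁ + C₂) * X ^ 2 * P := by ring
      _ ≤ (2 * C₁ + C₂ + C₃ * M ^ n * (1 + Real.log M) ^ n) * X ^ 2 * P := by
          have h12 : 2 * C₁ + C₂ ≤ 2 * C₁ + C₂ + C₃ * M ^ n * (1 + Real.log M) ^ n := by linarith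
          exact mul_le_mul_of_nonneg_right (mul_le_mul_of_nonneg_right h12 (by positivity)) (by positivity)
  · have h6 := h5 N (H1 n N) F hi3 hF k f hf hon
    have hNM : (N : ℝ) ≤ M := by
      refine le_trans ?_ (le_max_right _ _)
      exact_mod_cast (not_le.1 hNN).le
    have hlN := Real.log_nonneg hN1
    have hix : ((H1 n N).index : ℝ) ≤ M ^ n := by
      have : ((H1 n N).index : ℝ) ≤ (N : ℝ) ^ n := by exact_mod_cast hi1
      exact this.trans (by gcongr)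
    have hll : Real.log N ≤ Real.log M := Real.log_le_log hN0 hNM
    calc (k : ℝ) ≤ C₃ * (H1 n N).index * (1 + Real.log N) ^ n := h6
      _ ≤ C₃ * M ^ n * (1 + Real.log M) ^ n := by gcongr
      _ = C₃ * M ^ n * (1 + Real.log M) ^ n * 1 * 1 := by ring
      _ ≤ (C₃ * M ^ n * (1 + Real.log M) ^ n) * X ^ 2 * P := by gcongr
      _ ≤ (2 * C₁ + C₂ + C₃ * M ^ n * (1 + Real.log M) ^ n) * X ^ 2 * P := by
          gcongr
          linarith

end Pool.Agent.T2h77.Z
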