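import Pool.Agent.T2h77Z.Stm

/-!
# FINZ: the general density theorem
-/

set_option autoImplicit false

open MeasureTheory Matrix
open scoped MatrixGroups ENNReal Topology ComplexConjugate

noncomputable section

namespace Pool.Agent.T2h77.Z

open Pool.Agent.T2h77.N Pool.Agent.T2h79.LG

theorem t_FINZ (hlow : S_lowr) (hhih : S_hih) (htrh : S_trh) : S_finz := by
  classical
  intro n hn H dd sz hdd hsz hix hPLS
  obtain ⟨η₀, hη₀, h1⟩ := hhih n hn
  have hnR : (1 : ℝ) ≤ n := by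
    have : 1 ≤ n := by omega
    exact_mod_cast this
  have hn2 : (1 : ℝ) ≤ (n : ℝ) ^ 2 := one_le_pow₀ hnR
  have hddR : (1 : ℝ) ≤ dd := by exact_mod_cast hdd
  set η₁ : ℝ := min η₀ (1 / (4 * (n : ℝ) ^ 2)) with hη₁
  have hη₁0 : 0 < η₁ := lt_min hη₀ (by positivity)
  set τ₀ : ℝ := min (η₁ / (4 * dd)) (1 / (2 * (n : ℝ) ^ 2)) with hτ₀
  have hτ₀0 : 0 < τ₀ := lt_min (by positivity) (by positivity)
  refine ⟨τ₀, hτ₀0, ?_⟩
  intro U hU τ ε hτ hττ hε
  obtain ⟨χ, hχ1, hχ2, hχ3, hχ4, hχ5⟩ := exists_bump n hU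
  set η : ℝ := 4 * dd * τ with hη
  have hη0 : 0 < η := by positivity
  have hηη : η ≤ η₁ := by
    have h2 : τ ≤ η₁ / (4 * dd) := hττ.trans (min_le_left _ _)
    rw [le_div_iff₀ (by positivity)] at h2
    rw [hη]
    linarith
  have hτn : 2 * (n : ℝ) ^ 2 * τ ≤ 1 := by
    have h2 : τ ≤ 1 / (2 * (n : ℝ) ^ 2) := hττ.trans (min_le_right _ _)
    rw [le_div_iff₀ (by positivity)] at h2
    linarith
  have hηn : η * (n : ℝ) ^ 2 ≤ 1 / 4 := by
    have h2 : η ≤ 1 / (4 * (n : ℝ) ^ 2) := hηη.trans (min_le_right _ _)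
    rw [le_div_iff₀ (by positivity)] at h2
    linarith
  obtain ⟨C₁, hC₁, h3⟩ := h1 U χ hχ1 hχ2 hχ3 hχ4 hχ5 η hη0 (hηη.trans (min_le_left _ _))
  obtain ⟨C₂, N₀, hC₂, h4⟩ := hlow n (by omega) H dd sz hdd hsz hPLS χ hχ1 hχ2 ε η C₁ hε hη0 hηn hC₁
  obtain ⟨C₃, hC₃, h5⟩ := htrh n hn U hU
  set M : ℝ := max 1 (N₀ : ℝ) with hM
  have hM1 : 1 ≤ M := le_max_left _ _
  have hlM := Real.log_nonneg hM1
  refine ⟨C₁ + C₂ + C₃ * (1 + Real.log M) ^ n * M ^ (2 * dd * τ), by positivity, ?_⟩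
  intro N _ F hF k f l hf hon heig X hX hviol
  obtain ⟨hi1, hi2, hi3⟩ := hix N
  have hN1 : (1 : ℝ) ≤ N := by exact_mod_cast NeZero.one_le
  have hN0 : (0 : ℝ) < N := by linarith
  have hX0 : 0 ≤ X := by linarith
  have hX2 : 1 ≤ X ^ (2 : ℝ) := Real.one_le_rpow hX (by norm_num)
  have hszN := hsz N
  set Q : ℝ := X ^ (2 : ℝ) * sz N * (N : ℝ) ^ (ε - 2 * dd * τ) with hQ
  have hQ0 : 0 ≤ Q := by positivity
  have hszQ : sz N * (N : ℝ) ^ (-(2 * dd * τ)) ≤ Q := by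
    have h6 : (N : ℝ) ^ (-(2 * dd * τ)) ≤ (N : ℝ) ^ (ε - 2 * dd * τ) :=
      Real.rpow_le_rpow_of_exponent_le hN1 (by linarith)
    calc sz N * (N : ℝ) ^ (-(2 * dd * τ)) ≤ sz N * (N : ℝ) ^ (ε - 2 * dd * τ) :=
          mul_le_mul_of_nonneg_left h6 hszN
      _ = 1 * (sz N * (N : ℝ) ^ (ε - 2 * dd * τ)) := (one_mul _).symm
      _ ≤ X ^ (2 : ℝ) * (sz N * (N : ℝ) ^ (ε - 2 * dd * τ)) :=
          mul_le_mul_of_nonneg_right hX2 (by positivity)
      _ = Q := by rw [hQ]; ring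
  have hgoal : C₁ * Q + C₂ * Q + C₃ * (1 + Real.log M) ^ n * M ^ (2 * dd * τ) * Q =
      (C₁ + C₂ + C₃ * (1 + Real.log M) ^ n * M ^ (2 * dd * τ)) * X ^ (2 : ℝ) * sz N *
        (N : ℝ) ^ (ε - 2 * dd * τ) := by
    rw [hQ]
    ring
  rw [← hgoal]
  have hp1 : 0 ≤ C₁ * Q := by positivity
  have hp2 : 0 ≤ C₂ * Q := by positivity
  have hp3 : 0 ≤ C₃ * (1 + Real.log M) ^ n * M ^ (2 * dd * τ) * Q := by positivity
  by_cases hNN : N₀ ≤ N
  · obtain ⟨I, hI, hI'⟩ := h3 N (H N) F hi2 hi3 hF k f hf hon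
    have hFam : Fam F f := ⟨fun i => (hf i).1, fun i => (hf i).2.1, hon⟩
    -- the forms which violate at `p`
    set W : ℕ → Finset (Fin k) := fun p =>
      if (p : ℝ) ≤ X then Finset.univ.filter fun i => i ∉ I ∧ Viol (n := n) N τ p (l i) else ∅ with hW
    have hWc : ∀ p : ℕ, ((W p).card : ℝ) ≤ C₂ * X * sz N * (N : ℝ) ^ (ε - 2 * dd * τ) := by
      intro p
      by_cases hpX : (p : ℝ) ≤ X
      · have h6 := h4 N F hNN hF k f l hFam heig τ X p hτ hτn hpX (W p)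
          (fun i hi => by
            simp only [hW, hpX, if_true, Finset.mem_filter, Finset.mem_univ, true_and] at hi
            exact hi.2)
          (fun i hi => by
            simp only [hW, hpX, if_true, Finset.mem_filter, Finset.mem_univ, true_and] at hi
            exact hI' i hi.1)
        refine h6.trans ?_
        have h7 : X ^ (2 * (n : ℝ) * τ) ≤ X := by
          calc X ^ (2 * (n : ℝ) * τ) ≤ X ^ (1 : ℝ) := by
                refine Real.rpow_le_rpow_of_exponent_le hX ?_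
                have h8 : (n : ℝ) * τ ≤ (n : ℝ) ^ 2 * τ := by
                  refine mul_le_mul_of_nonneg_right ?_ hτ.le
                  nlinarith
                linarith
            _ = X := Real.rpow_one X
        gcongr
      · simp only [hW, hpX, if_false, Finset.card_empty, Nat.cast_zero]
        positivity
    have hcov : Iᶜ ⊆ (Finset.Icc 1 ⌊X⌋₊).biUnion W := by
      intro i hi
      rw [Finset.mem_compl] at hi
      obtain ⟨p, hpX, hv⟩ := hviol i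
      rw [Finset.mem_biUnion]
      refine ⟨p, ?_, ?_⟩
      · rw [Finset.mem_Icc]
        exact ⟨hv.1.one_lt.le, Nat.le_floor hpX⟩
      · simp only [hW, hpX, if_true, Finset.mem_filter, Finset.mem_univ, true_and]
        exact ⟨hi, hv⟩
    have h6 : (Iᶜ.card : ℝ) ≤ C₂ * Q := by
      calc (Iᶜ.card : ℝ) ≤ (((Finset.Icc 1 ⌊X⌋₊).biUnion W).card : ℝ) := by
            exact_mod_cast Finset.card_le_card hcov
        _ ≤ ∑ p ∈ Finset.Icc 1 ⌊X⌋₊, ((W p).card : ℝ) := by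
            exact_mod_cast Finset.card_biUnion_le
        _ ≤ ∑ _p ∈ Finset.Icc 1 ⌊X⌋₊, C₂ * X * sz N * (N : ℝ) ^ (ε - 2 * dd * τ) :=
            Finset.sum_le_sum fun p _ => hWc p
        _ = (⌊X⌋₊ : ℝ) * (C₂ * X * sz N * (N : ℝ) ^ (ε - 2 * dd * τ)) := by
            rw [Finset.sum_const, Nat.card_Icc, nsmul_eq_mul, Nat.add_sub_cancel]
        _ ≤ X * (C₂ * X * sz N * (N : ℝ) ^ (ε - 2 * dd * τ)) :=
            mul_le_mul_of_nonneg_right (Nat.floor_le hX0) (by positivity)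
        _ = C₂ * Q := by
            have e : X ^ (2 : ℝ) = X * X := by
              rw [show (2 : ℝ) = ((2 : ℕ) : ℝ) by norm_num, Real.rpow_natCast, pow_two]
            rw [hQ, e]
            ring
    have h7 : (k : ℝ) = (I.card : ℝ) + (Iᶜ.card : ℝ) := by
      have := Finset.card_add_card_compl I
      rw [Fintype.card_fin] at this
      exact_mod_cast this.symm
    have h8 : (I.card : ℝ) ≤ C₁ * Q := by
      have e : -(η / 2) = -(2 * dd * τ) := by rw [hη]; ring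
      rw [e] at hI
      calc (I.card : ℝ) ≤ C₁ * (H N).index * (N : ℝ) ^ (-(2 * dd * τ)) := hI
        _ ≤ C₁ * sz N * (N : ℝ) ^ (-(2 * dd * τ)) := by gcongr
        _ = C₁ * (sz N * (N : ℝ) ^ (-(2 * dd * τ))) := by ring
        _ ≤ C₁ * Q := mul_le_mul_of_nonneg_left hszQ (by linarith)
    rw [h7]
    linarith
  · have h6 := h5 N (H N) F hi3 hF k f hf hon
    have hNM : (N : ℝ) ≤ M := by
      refine le_trans ?_ (le_max_right _ _)
      exact_mod_cast (not_le.1 hNN).le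
    have hlN := Real.log_nonneg hN1
    have hdt : 0 ≤ 2 * dd * τ := by positivity
    have h7 : (1 + Real.log N) ^ n ≤ (1 + Real.log M) ^ n * M ^ (2 * dd * τ) * (N : ℝ) ^ (-(2 * dd * τ)) := by
      have e1 : 1 ≤ M ^ (2 * dd * τ) * (N : ℝ) ^ (-(2 * dd * τ)) := by
        rw [Real.rpow_neg hN0.le, ← div_eq_mul_inv, one_le_div (by positivity)]
        exact Real.rpow_le_rpow hN0.le hNM hdt
      have e2 : (1 + Real.log N) ^ n ≤ (1 + Real.log M) ^ n :=
        pow_le_pow_left₀ (by linarith) (by linarith [Real.log_le_log hN0 hNM]) n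
      have e3 : 0 ≤ (1 + Real.log M) ^ n := by positivity
      calc (1 + Real.log N) ^ n ≤ (1 + Real.log M) ^ n * 1 := by rw [mul_one]; exact e2
        _ ≤ (1 + Real.log M) ^ n * (M ^ (2 * dd * τ) * (N : ℝ) ^ (-(2 * dd * τ))) :=
            mul_le_mul_of_nonneg_left e1 e3
        _ = _ := by ring
    calc (k : ℝ) ≤ C₃ * (H N).index * (1 + Real.log N) ^ n := h6
      _ ≤ C₃ * sz N * ((1 + Real.log M) ^ n * M ^ (2 * dd * τ) * (N : ℝ) ^ (-(2 * dd * τ))) :=
          mul_le_mul (mul_le_mul_of_nonneg_left hi1 (by linarith)) h7 (by positivity) (by positivity)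
      _ = C₃ * (1 + Real.log M) ^ n * M ^ (2 * dd * τ) * (sz N * (N : ℝ) ^ (-(2 * dd * τ))) := by ring
      _ ≤ C₃ * (1 + Real.log M) ^ n * M ^ (2 * dd * τ) * Q := mul_le_mul_of_nonneg_left hszQ (by positivity)
      _ ≤ _ := by linarith

end Pool.Agent.T2h77.Z
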