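import Pool.Agent.T2h77Z.Stm2

/-!
# Task FXW (helper7): the kernel of an integral matrix modulo `N`
-/

set_option autoImplicit false

open Matrix

namespace Pool.Agent.T2h77.Z

open Pool.Agent.T2h77.N Pool.Agent.T2h79.LG

theorem t_FXW : S_fxw := by
  intro n N _ W hW
  have hN : 0 < N := Nat.pos_of_ne_zero (NeZero.ne N)
  have hn : 0 < n := by
    rcases Nat.eq_zero_or_pos n with h | h
    · subst h
      exact absurd (Subsingleton.elim W 0) hW
    · exact h
  obtain ⟨f, hf⟩ : ∃ f : (Fin n → ZMod N) →+ (Fin n → ZMod N),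
    ∀ v, f v = W.map (Int.cast : ℤ → ZMod N) *ᵥ v :=
    ⟨(Matrix.mulVecLin (W.map (Int.cast : ℤ → ZMod N))).toAddMonoidHom, fun _ => rfl⟩
  obtain ⟨e, he⟩ : ∃ e : ℕ, e = AddMonoid.exponent f.range := ⟨_, rfl⟩
  have heN : e ∣ N := by
    rw [he]
    refine AddMonoid.exponent_dvd_of_forall_nsmul_eq_zero fun g => ?_
    apply Subtype.ext
    change N • (g : Fin n → ZMod N) = 0
    funext i
    rw [Pi.smul_apply, nsmul_eq_mul, ZMod.natCast_self, zero_mul]
    rfl
  obtain ⟨d, hd⟩ := heN
  have he0 : 0 < e := Nat.pos_of_ne_zero fun h => hN.ne' (by rw [hd, h, zero_mul])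
  have hd0 : 0 < d := Nat.pos_of_ne_zero fun h => hN.ne' (by rw [hd, h, mul_zero])
  refine ⟨d, hd0, ⟨e, by rw [hd, mul_comm]⟩, fun i j => ?_, ?_⟩
  · have h1 : e • (f (Pi.single j 1)) = 0 := by
      have h2 := AddMonoid.exponent_nsmul_eq_zero (⟨f (Pi.single j 1), ⟨_, rfl⟩⟩ : f.range)
      rw [← he] at h2
      exact congrArg Subtype.val h2
    have h2 := congrFun h1 i
    rw [Pi.smul_apply, hf, Matrix.mulVec_single_one, Pi.zero_apply, nsmul_eq_mul] at h2
    have h3 : (((e : ℤ) * W i j : ℤ) : ZMod N) = 0 := by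
      push_cast
      exact h2
    rw [ZMod.intCast_zmod_eq_zero_iff_dvd, hd] at h3
    push_cast at h3
    exact Int.dvd_of_mul_dvd_mul_left (by exact_mod_cast he0.ne') h3
  · have h1 : Nat.card {v : Fin n → ZMod N // W.map (Int.cast : ℤ → ZMod N) *ᵥ v = 0} = Nat.card f.ker := by
      refine Nat.card_congr (Equiv.subtypeEquivRight fun v => ?_)
      rw [AddMonoidHom.mem_ker, hf]
    have h2 : Nat.card f.ker * Nat.card f.range = N ^ n := by
      rw [← AddSubgroup.index_ker, AddSubgroup.card_mul_index, Nat.card_eq_fintype_card, Fintype.card_fun,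
        ZMod.card, Fintype.card_fin]
    have h3 : e ≤ Nat.card f.range := by
      refine Nat.le_of_dvd Nat.card_pos ?_
      rw [he]
      exact AddGroup.exponent_dvd_nat_card
    have h4 : Nat.card f.ker * e ≤ N ^ (n - 1) * d * e := by
      calc Nat.card f.ker * e ≤ Nat.card f.ker * Nat.card f.range := Nat.mul_le_mul_left _ h3
        _ = N ^ n := h2
        _ = N ^ (n - 1) * N := by
          conv_lhs => rw [show n = n - 1 + 1 by omega, pow_succ]
        _ = N ^ (n - 1) * d * e := by
          conv_lhs => rw [hd]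
          conv_rhs => rw [hd]
          ring
    rw [h1]
    exact Nat.le_of_mul_le_mul_right h4 he0

end Pool.Agent.T2h77.Z
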