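import Pool.Agent.T2h77Z.Stm2
import Pool.Agent.T2h79.LG.T_HIH

/-!
# Project UNI, task HI1: few forms have little mass in the low region, level `K_1(N)`
-/

set_option autoImplicit false

open MeasureTheory Matrix
open scoped MatrixGroups ENNReal Topology ComplexConjugate

noncomputable section

namespace Pool.Agent.T2h77.Z

open Pool.Agent.T2h77.N Pool.Agent.T2h79.LG

set_option maxHeartbeats 1000000 in
theorem t_HI1 (hiw : S_iw) (hred : S_red) (hint : S_int) (htr : S_trace) (hcut : S_cut) (hmass : S_mass)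
    (hcov : S_cov) (hrcf : S_rcf) (hcnth : S_cnth) (hshv : S_shv1) (hhon : S_hon) : S_hi1 := by
  classical
  intro n hn U χ hχ hχc hχ0 hχU hχ1 η ε hη0 hε
  obtain ⟨M, Ct, hCt, htr⟩ := htr n χ hχ hχc
  obtain ⟨Cn, hCn, hcn⟩ := hcnth n (by omega) M (ε / 2) (by positivity)
  obtain ⟨W, hW, hcut⟩ := hcut n χ (1 / 16) hχ hχc (by norm_num)
  obtain ⟨Ci, hCi, hi⟩ := hint n
  obtain ⟨Cs, hCs, hs⟩ := hshv n (by omega)
  obtain ⟨C₁, hC₁, hlog⟩ := log_pow_le n (ε / 2) (by positivity)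
  have hlW : 0 ≤ Real.log W := Real.log_nonneg hW
  set K : ℝ := 1 + Real.log W + (n : ℝ) ^ 2 with hK
  have hK1 : 1 ≤ K := by
    have : (0 : ℝ) ≤ (n : ℝ) ^ 2 := by positivity
    linarith
  set E : ℝ := 16 * (Ct * (Cs + Cn * Ci) * (K ^ n * C₁)) with hE
  have hE0 : 0 < E := by positivity
  refine ⟨1 + E, by linarith, fun N _ F hF k f hf horth => ?_⟩
  obtain ⟨-, hD1, hD2, -⟩ := hhon n N (by omega)
  have hN1 : 1 ≤ N := Nat.one_le_iff_ne_zero.2 (NeZero.ne N)
  have hNr : (1 : ℝ) ≤ N := by exact_mod_cast hN1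
  have hN0 : (0 : ℝ) < N := by linarith
  set D : ℝ := (ixS (H1 n N) : ℝ) with hD
  have hND : (N : ℝ) ≤ D := by
    rw [hD]
    exact_mod_cast hD1
  have hD1' : 1 ≤ D := hNr.trans hND
  have hD2' : D ≤ (N : ℝ) ^ (n ^ 2) := by
    rw [hD]
    exact_mod_cast hD2
  have hWD : 1 ≤ W * D := by nlinarith
  have hlN : 0 ≤ Real.log N := Real.log_nonneg hNr
  have hlWD : 0 ≤ Real.log (W * D) := Real.log_nonneg hWD
  have hNη : 1 ≤ (N : ℝ) ^ η := Real.one_le_rpow hNr hη0.le
  set Y : ℝ := (N : ℝ) ^ η with hY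
  set low : Fin k → ℝ≥0∞ := fun i => ∫⁻ g in F ∩ sat (SL n Y), sq (Rc χ (f i)) g ∂(mu n) with hlowdef
  set high : Fin k → ℝ≥0∞ := fun i => ∫⁻ g in F ∩ sat (SH n Y (W * D)), sq (Rc χ (f i)) g ∂(mu n) with hhighdef
  have hsplit : ∀ i, ENNReal.ofReal (3 / 16) ≤ low i + high i := fun i =>
    mass_split hred hrcf hχ hχc hF (hf i).1 (hf i).2.1 (by rw [horth, if_pos rfl])
      (hmass n U χ hχ hχc hχ0 hχU hχ1 N (H1 n N) F hF (f i) (hf i).1 (hf i).2.1 (by rw [horth, if_pos rfl])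
        (hf i).2.2.2)
      (hcut N (H1 n N) F hF (f i) (hf i).1 (hf i).2.1 (hf i).2.2.1) Y
  set L : ℝ := (1 + Real.log (W * D)) ^ n with hL
  have hL0 : 0 ≤ L := by positivity
  set P : ℝ := (N : ℝ) ^ n with hP
  set Q : ℝ := Cn * (N : ℝ) ^ ((n : ℝ) - 1 + ε / 2) with hQ
  have hP0 : 0 ≤ P := by positivity
  have hQ0 : 0 ≤ Q := by positivity
  set B' : ℝ := Ct * P * (Cs * Y⁻¹ ^ (n - 1) * L) + Ct * Q * (Ci * L) with hB'
  have hY0 : 0 < Y := by linarith
  have hB1 : 0 ≤ Ct * P * (Cs * Y⁻¹ ^ (n - 1) * L) := by positivity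
  have hB2 : 0 ≤ Ct * Q * (Ci * L) := by positivity
  have hB0' : 0 ≤ B' := by positivity
  have hhighB : ∑ i, high i ≤ ENNReal.ofReal B' := by
    have h1 := region_bound hcov hrcf hχ hχc hF (fun i => (hf i).1) (fun i => (hf i).2.1) one_pos (isReps_one n)
      (M := M) (C := Ct) (fun g c => htr N (H1 n N) F hF k f (fun i => (hf i).1) (fun i => (hf i).2.1) horth 1 {1}
        one_pos (by simp) (isReps_one n) g c) hCt.le Finset.univ (fun _ => 1)
      (fun i _ g c => by rw [Finset.sum_singleton, scl_one, rdM_one, one_mul, one_smul, one_mul])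
      (measurable_SH hiw n Y (W * D)) (fun x => P + Q * wt (ac x)) (fun x hx => hcn N x hx.1.1)
    simp only [enorm_one, one_pow, one_mul] at h1
    refine h1.trans ?_
    have h2 : ∀ x : GR n, ENNReal.ofReal (Ct * (P + Q * wt (ac x))) =
        ENNReal.ofReal (Ct * P) + ENNReal.ofReal (Ct * Q) * ENNReal.ofReal (wt (ac x)) := fun x => by
      have h4 := HIH.wt_nonneg' x
      rw [← ENNReal.ofReal_mul (by positivity), ← ENNReal.ofReal_add (by positivity) (by positivity)]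
      congr 1
      ring
    calc ∫⁻ x in SH n Y (W * D), ENNReal.ofReal (Ct * (P + Q * wt (ac x))) ∂(mu n)
        = ∫⁻ x in SH n Y (W * D), (ENNReal.ofReal (Ct * P) +
            ENNReal.ofReal (Ct * Q) * ENNReal.ofReal (wt (ac x))) ∂(mu n) := lintegral_congr fun x => h2 x
      _ = ENNReal.ofReal (Ct * P) * mu n (SH n Y (W * D)) +
          ENNReal.ofReal (Ct * Q) * ∫⁻ x in SH n Y (W * D), ENNReal.ofReal (wt (ac x)) ∂(mu n) := by
          rw [lintegral_add_left measurable_const, lintegral_const_mul _ (measurable_wt hiw n), setLIntegral_const]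
      _ ≤ ENNReal.ofReal (Ct * P) * ENNReal.ofReal (Cs * Y⁻¹ ^ (n - 1) * L) +
          ENNReal.ofReal (Ct * Q) * ENNReal.ofReal (Ci * L) := by
          gcongr
          · exact hs Y (W * D) hNη hWD
          · exact (lintegral_mono_set Set.inter_subset_left).trans (hi (W * D) hWD)
      _ = ENNReal.ofReal B' := by
          rw [← ENNReal.ofReal_mul (by positivity), ← ENNReal.ofReal_mul (by positivity),
            ← ENNReal.ofReal_add hB1 hB2]
  refine ⟨Finset.univ.filter fun i => low i < ENNReal.ofReal (1 / 8), ?_, fun i hi => ?_⟩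
  · set I := Finset.univ.filter fun i => low i < ENNReal.ofReal (1 / 8) with hI
    have h1 : ∀ i ∈ I, ENNReal.ofReal (1 / 16) ≤ high i := by
      intro i hi
      rw [hI, Finset.mem_filter] at hi
      have h2 := hsplit i
      have h3 : ENNReal.ofReal (3 / 16) = ENNReal.ofReal (1 / 8) + ENNReal.ofReal (1 / 16) := by
        rw [← ENNReal.ofReal_add (by norm_num) (by norm_num)]
        norm_num
      rw [h3] at h2
      by_contra h4
      rw [not_le] at h4
      exact absurd (ENNReal.add_lt_add hi.2 h4) (not_lt.2 h2)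
    have h2 : ENNReal.ofReal (I.card * (1 / 16)) ≤ ENNReal.ofReal B' := by
      calc ENNReal.ofReal (I.card * (1 / 16)) = ∑ _i ∈ I, ENNReal.ofReal (1 / 16) := by
            rw [Finset.sum_const, nsmul_eq_mul, ENNReal.ofReal_mul (by positivity), ENNReal.ofReal_natCast]
        _ ≤ ∑ i ∈ I, high i := Finset.sum_le_sum h1
        _ ≤ ∑ i, high i := Finset.sum_le_sum_of_subset (Finset.subset_univ _)
        _ ≤ _ := hhighB
    have h3 : (I.card : ℝ) * (1 / 16) ≤ B' := (ENNReal.ofReal_le_ofReal_iff hB0').1 h2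
    have h4 : L ≤ K ^ n * (C₁ * (N : ℝ) ^ (ε / 2)) := by
      calc (1 + Real.log (W * D)) ^ n ≤ (K * (1 + Real.log N)) ^ n :=
            pow_le_pow_left₀ (by linarith) (HIH.log_WD (n := n) hN1 hW hD1' hD2') n
        _ = K ^ n * (1 + Real.log N) ^ n := mul_pow _ _ _
        _ ≤ _ := by
            gcongr
            exact hlog N hNr
    have hYn : Y⁻¹ ^ (n - 1) = (N : ℝ) ^ (-(((n : ℝ) - 1) * η)) := by
      rw [hY, ← Real.rpow_neg hN0.le, ← Real.rpow_natCast, ← Real.rpow_mul hN0.le, Nat.cast_sub (by omega)]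
      congr 1
      push_cast
      ring
    set y : ℝ := (N : ℝ) ^ (-(((n : ℝ) - 1) * η)) with hy
    have hy0 : 0 ≤ y := by positivity
    have e1 : P * (N : ℝ) ^ (ε / 2) ≤ (N : ℝ) ^ ((n : ℝ) + ε) := by
      rw [hP, ← Real.rpow_natCast, ← Real.rpow_add hN0]
      exact Real.rpow_le_rpow_of_exponent_le hNr (by linarith)
    have e2 : (N : ℝ) ^ ((n : ℝ) - 1 + ε / 2) * (N : ℝ) ^ (ε / 2) = (N : ℝ) ^ ((n : ℝ) + ε) * (N : ℝ) ^ (-1 : ℝ) := by
      rw [← Real.rpow_add hN0, ← Real.rpow_add hN0]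
      congr 1
      ring
    set R : ℝ := (N : ℝ) ^ ((n : ℝ) + ε) with hR
    have hR0 : 0 ≤ R := by positivity
    set z : ℝ := (N : ℝ) ^ (-1 : ℝ) with hz
    have hz0 : 0 ≤ z := by positivity
    have h5 : B' ≤ Ct * (Cs + Cn * Ci) * (K ^ n * C₁) * (R * (y + z)) := by
      calc B' = Ct * (Cs * P * y + Cn * Ci * (N : ℝ) ^ ((n : ℝ) - 1 + ε / 2)) * L := by
            rw [hB', hYn, hQ]
            ring
        _ ≤ Ct * (Cs * P * y + Cn * Ci * (N : ℝ) ^ ((n : ℝ) - 1 + ε / 2)) * (K ^ n * (C₁ * (N : ℝ) ^ (ε / 2))) := by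
            gcongr
        _ = Ct * (K ^ n * C₁) * (Cs * (P * (N : ℝ) ^ (ε / 2)) * y +
            Cn * Ci * ((N : ℝ) ^ ((n : ℝ) - 1 + ε / 2) * (N : ℝ) ^ (ε / 2))) := by ring
        _ ≤ Ct * (K ^ n * C₁) * (Cs * R * y + Cn * Ci * (R * z)) := by
            rw [e2]
            gcongr
        _ ≤ Ct * (K ^ n * C₁) * ((Cs + Cn * Ci) * (R * (y + z))) := by
            gcongr
            have a1 : 0 ≤ Cs * (R * z) := by positivity
            have a2 : 0 ≤ Cn * Ci * (R * y) := by positivity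
            nlinarith
        _ = _ := by ring
    calc (I.card : ℝ) = 16 * ((I.card : ℝ) * (1 / 16)) := by ring
      _ ≤ 16 * (Ct * (Cs + Cn * Ci) * (K ^ n * C₁) * (R * (y + z))) := by linarith
      _ = E * R * (y + z) := by
          rw [hE]
          ring
      _ ≤ (1 + E) * R * (y + z) := by
          gcongr
          linarith
  · rw [Finset.mem_filter, not_and, not_lt] at hi
    exact hi (Finset.mem_univ _)

end Pool.Agent.T2h77.Z
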