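import Pool.Agent.T2h77Z.Stm2

/-!
# LOW1: the violating forms with mass in the low region, level `K_1(N)`
-/

set_option autoImplicit false

open MeasureTheory Matrix
open scoped MatrixGroups ENNReal Topology ComplexConjugate

noncomputable section

namespace Pool.Agent.T2h77.Z.LOW1

open Pool.Agent.T2h77.N Pool.Agent.T2h79.LG

/-- the dyadic decomposition of the low region -/
theorem SL_sub (n : ℕ) (Y : ℝ) (J : ℕ) (hJ : Y ≤ 2 ^ J) (hiw : S_iw) (x : GR n) (hx : x ∈ SL n Y) :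
    x ∈ SL n 1 ∨ ∃ j : Fin J, x ∈ SH n (2 ^ (j : ℕ)) (2 * 2 ^ (j : ℕ)) := by
  classical
  obtain ⟨hpos, -⟩ := hiw n
  have hP : ∃ m : ℕ, ∀ i j : Fin n, (i : ℕ) + 1 = j → ac x j ≤ 2 ^ m * ac x i := by
    refine ⟨J, fun i j hij => (hx.2 i j hij).trans ?_⟩
    exact mul_le_mul_of_nonneg_right hJ (hpos x i).le
  have hJ' : ∀ i j : Fin n, (i : ℕ) + 1 = j → ac x j ≤ 2 ^ J * ac x i := fun i j hij =>
    (hx.2 i j hij).trans (mul_le_mul_of_nonneg_right hJ (hpos x i).le)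
  have hm := Nat.find_spec hP
  have hmJ : Nat.find hP ≤ J := Nat.find_min' hP hJ'
  rcases Nat.eq_zero_or_pos (Nat.find hP) with h0 | h0
  · left
    refine ⟨hx.1, fun i j hij => ?_⟩
    have := hm i j hij
    rw [h0, pow_zero] at this
    exact this
  · right
    have hlt : Nat.find hP - 1 < Nat.find hP := by omega
    have hnot := Nat.find_min hP hlt
    push Not at hnot
    obtain ⟨i, j, hij, h1⟩ := hnot
    refine ⟨⟨Nat.find hP - 1, by omega⟩, ⟨hx.1, fun i' j' hij' => ?_⟩, i, j, hij, h1.le⟩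
    have h2 := hm i' j' hij'
    have h3 : (2 : ℝ) ^ Nat.find hP = 2 * 2 ^ (Nat.find hP - 1) := by
      rw [← pow_succ']
      congr 1
      omega
    rw [h3] at h2
    exact h2

/-- the mass in the low region -/
theorem mass_le {n : ℕ} (hiw : S_iw) (F : Set (GR n)) (Y : ℝ) (J : ℕ)
    (hJ : Y ≤ 2 ^ J) (h : GR n → ℝ≥0∞) :
    ∫⁻ g in F ∩ sat (SL n Y), h g ∂(mu n) ≤ ∫⁻ g in F ∩ sat (SL n 1), h g ∂(mu n) +
      ∑ j : Fin J, ∫⁻ g in F ∩ sat (SH n (2 ^ (j : ℕ)) (2 * 2 ^ (j : ℕ))), h g ∂(mu n) := by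
  have hsub : F ∩ sat (SL n Y) ⊆ (F ∩ sat (SL n 1)) ∪
      ⋃ j : Fin J, (F ∩ sat (SH n (2 ^ (j : ℕ)) (2 * 2 ^ (j : ℕ)))) := by
    rintro x ⟨hxF, γ, hγ⟩
    rcases SL_sub n Y J hJ hiw _ hγ with h1 | ⟨j, h1⟩
    · exact Or.inl ⟨hxF, γ, h1⟩
    · exact Or.inr (Set.mem_iUnion.2 ⟨j, hxF, γ, h1⟩)
  refine (lintegral_mono_set hsub).trans ((lintegral_union_le _ _ _).trans ?_)
  gcongr
  refine (lintegral_iUnion_le _ _).trans ?_
  rw [tsum_fintype]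

theorem log_pow_bound (n : ℕ) {ε η C₁ : ℝ} (hε : 0 < ε) (hη : 0 < η) (hC₁ : 1 ≤ C₁) :
    ∃ K : ℝ, 1 ≤ K ∧ ∀ N : ℝ, 1 ≤ N → (1 + Real.log (2 * (C₁ * N ^ η))) ^ (n + 1) ≤ K * N ^ ε := by
  set δ : ℝ := ε / (n + 1) with hδ
  have hδ0 : 0 < δ := by positivity
  have hl : 0 ≤ Real.log (2 * C₁) := Real.log_nonneg (by linarith)
  set B : ℝ := 1 + Real.log (2 * C₁) + η / δ with hB
  have hB1 : 1 ≤ B := by
    have : 0 ≤ η / δ := by positivity
    linarith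
  refine ⟨B ^ (n + 1), one_le_pow₀ hB1, fun N hN => ?_⟩
  have hN0 : 0 < N := by linarith
  have h1 : Real.log (2 * (C₁ * N ^ η)) = Real.log (2 * C₁) + η * Real.log N := by
    rw [← mul_assoc, Real.log_mul (by positivity) (by positivity), Real.log_rpow hN0]
  have h2 : Real.log N ≤ N ^ δ / δ := Real.log_le_rpow_div hN0.le hδ0
  have h3 : 1 ≤ N ^ δ := Real.one_le_rpow hN hδ0.le
  have h4 : 1 + Real.log (2 * (C₁ * N ^ η)) ≤ B * N ^ δ := by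
    rw [h1, hB]
    have h5 : η * Real.log N ≤ η / δ * N ^ δ := by
      calc η * Real.log N ≤ η * (N ^ δ / δ) := mul_le_mul_of_nonneg_left h2 hη.le
        _ = η / δ * N ^ δ := by ring
    have h6 : (1 + Real.log (2 * C₁)) * 1 ≤ (1 + Real.log (2 * C₁)) * N ^ δ :=
      mul_le_mul_of_nonneg_left h3 (by linarith)
    linarith
  have h0 : 0 ≤ 1 + Real.log (2 * (C₁ * N ^ η)) := by
    rw [h1]
    have := Real.log_nonneg hN
    positivity
  calc (1 + Real.log (2 * (C₁ * N ^ η))) ^ (n + 1) ≤ (B * N ^ δ) ^ (n + 1) := pow_le_pow_left₀ h0 h4 _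
    _ = B ^ (n + 1) * (N ^ δ) ^ (n + 1) := mul_pow _ _ _
    _ = B ^ (n + 1) * N ^ ε := by
        congr 1
        rw [← Real.rpow_natCast, ← Real.rpow_mul hN0.le]
        congr 1
        rw [hδ]
        push_cast
        field_simp

end Pool.Agent.T2h77.Z.LOW1

namespace Pool.Agent.T2h77.Z

open Pool.Agent.T2h77.N Pool.Agent.T2h79.LG LOW1

theorem t_LOW1 (hreg : S_reg) (hshv : S_shv1) (hiw : S_iw) (hent : S_ent) (hint : S_int) : S_low1 := by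
  classical
  intro n hn hPLS χ hχ hχc ε η hε hη hηn
  have hn' : 1 ≤ n := by omega
  obtain ⟨C₀, hC₀, hR⟩ := hreg n hn' (fun N => H1 n N) 1 (fun N => (N : ℝ) ^ n) (fun N => by positivity) hPLS
    χ hχ hχc (ε / 2) (by positivity)
  obtain ⟨Cs, hCs, hS⟩ := hshv n hn'
  obtain ⟨Cv, hCv, hV⟩ := vol_SL hiw hent hint n
  obtain ⟨K, hK, hK'⟩ := log_pow_bound n (ε := ε / 2) (C₁ := 1) (by positivity) hη le_rfl
  have hn1 : (1 : ℝ) ≤ n := by exact_mod_cast hn'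
  set κ : ℝ := 1 - η * (n : ℝ) ^ 2 with hκ
  have hκ0 : 0 < κ := by linarith
  set A : ℝ := C₀ * 2 ^ (n ^ 2) with hA
  have hA1 : 1 ≤ A := one_le_mul_of_one_le_of_one_le hC₀ (one_le_pow₀ (by norm_num))
  obtain ⟨N₀, hN₀⟩ := exists_nat_ge (A ^ (1 / κ))
  refine ⟨8 * C₀ * (Cv + 2 ^ (n + 1) * Cs) * K, N₀, ?_, ?_⟩
  · have h0 : (1 : ℝ) ≤ 2 ^ (n + 1) := one_le_pow₀ (by norm_num)
    have h1 : (1 : ℝ) ≤ 2 ^ (n + 1) * Cs := one_le_mul_of_one_le_of_one_le h0 hCs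
    have h2 : 1 ≤ Cv + 2 ^ (n + 1) * Cs := by linarith
    have h3 : 1 ≤ 8 * C₀ := by linarith
    exact one_le_mul_of_one_le_of_one_le (one_le_mul_of_one_le_of_one_le h3 h2) hK
  intro N _ F hNN hF k f l hFam heig τ X p hτ hτn hpX I hI hmass
  have hN1 : (1 : ℝ) ≤ N := by exact_mod_cast NeZero.one_le
  have hN0 : (0 : ℝ) < N := by linarith
  have hX0 : 0 ≤ X := (Nat.cast_nonneg p).trans hpX
  have hτ1 : τ ≤ 1 := by
    have h1 : (n : ℝ) ≤ (n : ℝ) ^ 2 := by nlinarith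
    have h2 : 0 ≤ (n : ℝ) ^ 2 * τ := by positivity
    by_contra hc
    push Not at hc
    have h3 : (n : ℝ) ^ 2 ≤ (n : ℝ) ^ 2 * τ := le_mul_of_one_le_right (by positivity) hc.le
    linarith
  have hY1 : 1 ≤ (N : ℝ) ^ η := Real.one_le_rpow hN1 hη.le
  set Y : ℝ := (N : ℝ) ^ η with hYdef
  obtain ⟨J', hJ1, hJ2⟩ := exists_nat_pow_near hY1 (one_lt_two (α := ℝ))
  set J : ℕ := J' + 1 with hJdef
  have hJY : Y ≤ 2 ^ J := hJ2.le
  have hJY2 : (2 : ℝ) ^ J ≤ 2 * Y := by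
    rw [hJdef, pow_succ]
    linarith
  set L : ℝ := 1 + Real.log (2 * Y) with hL
  have hL1 : 1 ≤ L := by
    have := Real.log_nonneg (show (1 : ℝ) ≤ 2 * Y by linarith)
    linarith
  have hJL : (J : ℝ) ≤ 2 * L := by
    have h1 : Real.log ((2 : ℝ) ^ J) ≤ Real.log (2 * Y) := Real.log_le_log (by positivity) hJY2
    rw [Real.log_pow] at h1
    have h2 := Real.log_two_gt_d9
    have h3 : (0 : ℝ) ≤ J := Nat.cast_nonneg J
    nlinarith
  -- the condition for REG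
  have hcond : ∀ y : ℝ, 0 ≤ y → y ≤ 2 * Y → C₀ * y ^ (n ^ 2) ≤ (N : ℝ) ^ 1 := by
    intro y hy0 hy
    have h1 : y ^ (n ^ 2) ≤ 2 ^ (n ^ 2) * (N : ℝ) ^ (η * (n : ℝ) ^ 2) := by
      calc y ^ (n ^ 2) ≤ (2 * Y) ^ (n ^ 2) := pow_le_pow_left₀ hy0 hy _
        _ = 2 ^ (n ^ 2) * ((N : ℝ) ^ η) ^ (n ^ 2) := by
            rw [hYdef, ← mul_pow]
        _ = 2 ^ (n ^ 2) * (N : ℝ) ^ (η * (n : ℝ) ^ 2) := by
            congr 1
            rw [← Real.rpow_natCast, ← Real.rpow_mul hN0.le]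
            push_cast
            rfl
    have h2 : A ≤ (N : ℝ) ^ κ := by
      have h3 : A ^ (1 / κ) ≤ (N : ℝ) := hN₀.trans (by exact_mod_cast hNN)
      calc A = (A ^ (1 / κ)) ^ κ := by
            rw [← Real.rpow_mul (by linarith), one_div, inv_mul_cancel₀ hκ0.ne', Real.rpow_one]
        _ ≤ (N : ℝ) ^ κ := Real.rpow_le_rpow (by positivity) h3 hκ0.le
    calc C₀ * y ^ (n ^ 2) ≤ C₀ * (2 ^ (n ^ 2) * (N : ℝ) ^ (η * (n : ℝ) ^ 2)) :=
          mul_le_mul_of_nonneg_left h1 (by linarith)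
      _ = A * (N : ℝ) ^ (η * (n : ℝ) ^ 2) := by rw [hA]; ring
      _ ≤ (N : ℝ) ^ κ * (N : ℝ) ^ (η * (n : ℝ) ^ 2) := mul_le_mul_of_nonneg_right h2 (by positivity)
      _ = (N : ℝ) ^ (1 : ℝ) := by
          rw [← Real.rpow_add hN0]
          congr 1
          rw [hκ]
          ring
      _ = (N : ℝ) ^ 1 := by rw [Real.rpow_one, pow_one]
  have hexp1 : (N : ℝ) ^ n * (N : ℝ) ^ (ε / 2 - 2 * ((1 : ℕ) : ℝ) * τ) = (N : ℝ) ^ ((n : ℝ) - 2 * τ + ε / 2) := by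
    rw [← Real.rpow_natCast, ← Real.rpow_add hN0]
    congr 1
    push_cast
    ring
  set P : ℝ := C₀ * X ^ (2 * (n : ℝ) * τ) * (N : ℝ) ^ n * (N : ℝ) ^ (ε / 2 - 2 * ((1 : ℕ) : ℝ) * τ) with hP
  have hXr : 0 ≤ X ^ (2 * (n : ℝ) * τ) := Real.rpow_nonneg hX0 _
  have hP0 : 0 ≤ P := by
    have h2 : 0 ≤ C₀ := by linarith
    positivity
  -- the central region
  have hA' : ∑ i ∈ I, ∫⁻ g in F ∩ sat (SL n 1), Pool.Agent.T2h77.N.sq (Rc χ (f i)) g ∂(mu n) ≤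
      ENNReal.ofReal (P * Cv) := by
    have hv : mu n (SL n 1) ≤ ENNReal.ofReal Cv := by
      have := hV 1 le_rfl
      simpa using this
    have h1 := hR N F hF k f l hFam heig τ X 1 Cv p hτ hτ1 hpX le_rfl
      (hcond 1 zero_le_one (by linarith)) hCv.le (SL n 1) (measurable_SL hiw n 1) subset_rfl hv I hI
    refine h1.trans (ENNReal.ofReal_le_ofReal (le_of_eq ?_))
    rw [Real.one_rpow, mul_one, hP]
  -- the shells
  have hB' : ∀ j : Fin J, ∑ i ∈ I, ∫⁻ g in F ∩ sat (SH n (2 ^ (j : ℕ)) (2 * 2 ^ (j : ℕ))),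
      Pool.Agent.T2h77.N.sq (Rc χ (f i)) g ∂(mu n) ≤ ENNReal.ofReal (P * (2 ^ n * Cs * L ^ n)) := by
    intro j
    set y : ℝ := 2 ^ (j : ℕ) with hy
    have hy1 : 1 ≤ y := one_le_pow₀ (by norm_num)
    have hy0 : 0 < y := by linarith
    have hyY : 2 * y ≤ 2 * Y := by
      refine le_trans ?_ hJY2
      rw [hy, ← pow_succ']
      exact pow_le_pow_right₀ (by norm_num) (by omega)
    have hlog : 1 + Real.log (2 * y) ≤ L := by
      have := Real.log_le_log (show 0 < 2 * y by positivity) hyY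
      linarith
    have hlog0 : 0 ≤ 1 + Real.log (2 * y) := by
      have := Real.log_nonneg (show 1 ≤ 2 * y by linarith)
      linarith
    have h1 := hR N F hF k f l hFam heig τ X (2 * y) (Cs * y⁻¹ ^ (n - 1) * (1 + Real.log (2 * y)) ^ n) p hτ hτ1 hpX
      (by linarith) (hcond (2 * y) (by linarith) hyY) (by positivity) (SH n y (2 * y))
      (measurable_SH hiw n y (2 * y)) (fun x hx => hx.1) (hS y (2 * y) hy1 (by linarith)) I hI
    refine h1.trans (ENNReal.ofReal_le_ofReal ?_)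
    have h2 : (2 * y) ^ (2 * (n : ℝ) ^ 2 * τ) ≤ (2 * y) ^ (n - 1) := by
      calc (2 * y) ^ (2 * (n : ℝ) ^ 2 * τ) ≤ (2 * y) ^ ((n : ℝ) - 1) :=
            Real.rpow_le_rpow_of_exponent_le (by linarith) hτn
        _ = (2 * y) ^ (n - 1) := by
            rw [← Real.rpow_natCast]
            congr 1
            push_cast [hn']
            ring
    have h3 : (2 : ℝ) ^ (n - 1) ≤ 2 ^ n := pow_le_pow_right₀ (by norm_num) (by omega)
    calc C₀ * X ^ (2 * (n : ℝ) * τ) * (N : ℝ) ^ n * (N : ℝ) ^ (ε / 2 - 2 * ((1 : ℕ) : ℝ) * τ) *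
          (2 * y) ^ (2 * (n : ℝ) ^ 2 * τ) * (Cs * y⁻¹ ^ (n - 1) * (1 + Real.log (2 * y)) ^ n)
        = P * ((2 * y) ^ (2 * (n : ℝ) ^ 2 * τ) * (Cs * y⁻¹ ^ (n - 1) * (1 + Real.log (2 * y)) ^ n)) := by
          rw [hP]
          ring
      _ ≤ P * (2 ^ n * Cs * L ^ n) := by
          refine mul_le_mul_of_nonneg_left ?_ hP0
          calc (2 * y) ^ (2 * (n : ℝ) ^ 2 * τ) * (Cs * y⁻¹ ^ (n - 1) * (1 + Real.log (2 * y)) ^ n)
              ≤ (2 * y) ^ (n - 1) * (Cs * y⁻¹ ^ (n - 1) * (1 + Real.log (2 * y)) ^ n) :=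
                mul_le_mul_of_nonneg_right h2 (by positivity)
            _ = 2 ^ (n - 1) * (y * y⁻¹) ^ (n - 1) * Cs * (1 + Real.log (2 * y)) ^ n := by
                rw [mul_pow, mul_pow]
                ring
            _ = 2 ^ (n - 1) * Cs * (1 + Real.log (2 * y)) ^ n := by
                rw [mul_inv_cancel₀ hy0.ne', one_pow, mul_one]
            _ ≤ 2 ^ n * Cs * L ^ n := by
                have h4 := pow_le_pow_left₀ hlog0 hlog n
                gcongr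
  -- the sum
  have hsum : ENNReal.ofReal ((I.card : ℝ) * (1 / 8)) ≤
      ENNReal.ofReal (P * Cv + J * (P * (2 ^ n * Cs * L ^ n))) := by
    calc ENNReal.ofReal ((I.card : ℝ) * (1 / 8)) = ∑ _i ∈ I, ENNReal.ofReal (1 / 8) := by
          rw [Finset.sum_const, nsmul_eq_mul, ENNReal.ofReal_mul (Nat.cast_nonneg _), ENNReal.ofReal_natCast]
      _ ≤ ∑ i ∈ I, (∫⁻ g in F ∩ sat (SL n 1), Pool.Agent.T2h77.N.sq (Rc χ (f i)) g ∂(mu n) +
          ∑ j : Fin J, ∫⁻ g in F ∩ sat (SH n (2 ^ (j : ℕ)) (2 * 2 ^ (j : ℕ))),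
            Pool.Agent.T2h77.N.sq (Rc χ (f i)) g ∂(mu n)) :=
          Finset.sum_le_sum fun i hi => (hmass i hi).trans (mass_le hiw F Y J hJY _)
      _ = ∑ i ∈ I, ∫⁻ g in F ∩ sat (SL n 1), Pool.Agent.T2h77.N.sq (Rc χ (f i)) g ∂(mu n) +
          ∑ j : Fin J, ∑ i ∈ I, ∫⁻ g in F ∩ sat (SH n (2 ^ (j : ℕ)) (2 * 2 ^ (j : ℕ))),
            Pool.Agent.T2h77.N.sq (Rc χ (f i)) g ∂(mu n) := by
          rw [Finset.sum_add_distrib, Finset.sum_comm]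
      _ ≤ ENNReal.ofReal (P * Cv) + ∑ _j : Fin J, ENNReal.ofReal (P * (2 ^ n * Cs * L ^ n)) :=
          add_le_add hA' (Finset.sum_le_sum fun j _ => hB' j)
      _ = ENNReal.ofReal (P * Cv + J * (P * (2 ^ n * Cs * L ^ n))) := by
          rw [Finset.sum_const, Finset.card_univ, Fintype.card_fin, nsmul_eq_mul,
            ENNReal.ofReal_add (by positivity) (by positivity), ENNReal.ofReal_mul (p := (J : ℝ)) (Nat.cast_nonneg _),
            ENNReal.ofReal_natCast]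
  have hreal : (I.card : ℝ) * (1 / 8) ≤ P * Cv + J * (P * (2 ^ n * Cs * L ^ n)) :=
    (ENNReal.ofReal_le_ofReal_iff (by positivity)).1 hsum
  have hLn : L ^ (n + 1) ≤ K * (N : ℝ) ^ (ε / 2) := by
    have := hK' N hN1
    rw [one_mul] at this
    rw [hL, hYdef]
    exact this
  have hfin : P * Cv + J * (P * (2 ^ n * Cs * L ^ n)) ≤ P * ((Cv + 2 ^ (n + 1) * Cs) * (K * (N : ℝ) ^ (ε / 2))) := by
    have h1 : P * Cv + J * (P * (2 ^ n * Cs * L ^ n)) = P * (Cv + J * (2 ^ n * Cs * L ^ n)) := by ring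
    rw [h1]
    refine mul_le_mul_of_nonneg_left ?_ hP0
    have h2 : 1 ≤ L ^ (n + 1) := one_le_pow₀ hL1
    have h3 : (J : ℝ) * (2 ^ n * Cs * L ^ n) ≤ 2 * L * (2 ^ n * Cs * L ^ n) :=
      mul_le_mul_of_nonneg_right hJL (by positivity)
    have h4 : 2 * L * (2 ^ n * Cs * L ^ n) = 2 ^ (n + 1) * Cs * L ^ (n + 1) := by ring
    have h5 : Cv * 1 ≤ Cv * L ^ (n + 1) := mul_le_mul_of_nonneg_left h2 hCv.le
    calc Cv + J * (2 ^ n * Cs * L ^ n) ≤ Cv * L ^ (n + 1) + 2 ^ (n + 1) * Cs * L ^ (n + 1) := by linarith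
      _ = (Cv + 2 ^ (n + 1) * Cs) * L ^ (n + 1) := by ring
      _ ≤ (Cv + 2 ^ (n + 1) * Cs) * (K * (N : ℝ) ^ (ε / 2)) := mul_le_mul_of_nonneg_left hLn (by positivity)
  have hexp : (N : ℝ) ^ ((n : ℝ) - 2 * τ + ε / 2) * (N : ℝ) ^ (ε / 2) = (N : ℝ) ^ ((n : ℝ) - 2 * τ + ε) := by
    rw [← Real.rpow_add hN0]
    congr 1
    ring
  calc (I.card : ℝ) = 8 * ((I.card : ℝ) * (1 / 8)) := by ring
    _ ≤ 8 * (P * ((Cv + 2 ^ (n + 1) * Cs) * (K * (N : ℝ) ^ (ε / 2)))) := by linarith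
    _ = 8 * C₀ * (Cv + 2 ^ (n + 1) * Cs) * K * X ^ (2 * (n : ℝ) * τ) *
        (((N : ℝ) ^ n * (N : ℝ) ^ (ε / 2 - 2 * ((1 : ℕ) : ℝ) * τ)) * (N : ℝ) ^ (ε / 2)) := by
        rw [hP]
        ring
    _ = 8 * C₀ * (Cv + 2 ^ (n + 1) * Cs) * K * X ^ (2 * (n : ℝ) * τ) * (N : ℝ) ^ ((n : ℝ) - 2 * τ + ε) := by
        rw [hexp1, hexp]

end Pool.Agent.T2h77.Z
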