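import Pool.Agent.T2h77Z.Stm

/-!
# PL1: the bound at a point for a single Hecke operator, level `K_1(N)`
-/

set_option autoImplicit false

open MeasureTheory Matrix
open scoped MatrixGroups ENNReal Topology ComplexConjugate

noncomputable section

namespace Pool.Agent.T2h77.Z

open Pool.Agent.T2h77.N Pool.Agent.T2h79.LG

theorem t_PL1 (hL : S_lp1) : S_pl1 := by
  intro n hn χ hχ hχc ε hε
  obtain ⟨C, hC, h⟩ := hL n hn χ hχ hχc ε hε
  refine ⟨C, hC, ?_⟩
  intro N _ F hF k f l hfam heig Y m hY hm hmN hmC x hx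
  have hN0 : (0 : ℝ) < (N : ℝ) := by exact_mod_cast Nat.pos_of_ne_zero (NeZero.ne N)
  have h1 := h N F hF k f l hfam.1 hfam.2.1 hfam.2.2 heig Y {m} (fun _ => 1) hY
    (by intro a ha; rw [Finset.mem_singleton] at ha; subst ha; exact ⟨hm, hmN⟩)
    (by
      intro a ha b hb
      rw [Finset.mem_singleton] at ha hb
      subst ha; subst hb; omega)
    (by
      intro a ha
      rw [Finset.mem_singleton] at ha
      subst ha
      simpa using hmC) x hx
  simp only [Finset.sum_singleton, one_mul, norm_one, one_pow, mul_one] at h1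
  refine h1.trans (le_of_eq ?_)
  congr 1
  rw [Real.rpow_add hN0, Real.rpow_natCast]
  ring

end Pool.Agent.T2h77.Z
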