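import Pool.Agent.T2h77Z.Stm

/-!
# REG: the mass of the violating forms in a region
-/

set_option autoImplicit false

open MeasureTheory Matrix
open scoped MatrixGroups ENNReal Topology ComplexConjugate

noncomputable section

namespace Pool.Agent.T2h77.Z

open Pool.Agent.T2h77.N Pool.Agent.T2h79.LG

theorem reg_real {n dd : ℕ} {C₀ X Y N τ ε sz V : ℝ} (hC₀ : 1 ≤ C₀) (hX : 0 < X) (hY : 1 ≤ Y) (hN : 0 < N)
    (hτ1 : τ ≤ 1) (hsz : 0 ≤ sz) (hV : 0 ≤ V) :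
    ((4 ^ (n - 1))⁻¹ * ((N ^ dd / (C₀ * Y ^ (n ^ 2))) / X ^ n) ^ (2 * τ))⁻¹ * (n * (C₀ * sz * N ^ ε * V)) ≤
      n * 4 ^ n * C₀ ^ 3 * X ^ (2 * n * τ) * sz * N ^ (ε - 2 * dd * τ) * Y ^ (2 * n ^ 2 * τ) * V := by
  have hC0 : 0 < C₀ := by linarith
  have hY0 : 0 < Y := by linarith
  have e1 : ((N ^ dd / (C₀ * Y ^ (n ^ 2))) / X ^ n) ^ (2 * τ) =
      N ^ (2 * dd * τ) / (C₀ ^ (2 * τ) * Y ^ (2 * n ^ 2 * τ) * X ^ (2 * n * τ)) := by
    rw [div_div, Real.div_rpow (by positivity) (by positivity), Real.mul_rpow (by positivity) (by positivity),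
      Real.mul_rpow (by positivity) (by positivity)]
    congr 1
    · rw [← Real.rpow_natCast N dd, ← Real.rpow_mul hN.le]
      congr 1; ring
    · congr 1
      · congr 1
        rw [← Real.rpow_natCast Y (n ^ 2), ← Real.rpow_mul hY0.le]
        congr 1; push_cast; ring
      · rw [← Real.rpow_natCast X n, ← Real.rpow_mul hX.le]
        congr 1; ring
  rw [e1, mul_inv, inv_inv, inv_div]
  have e2 : N ^ (ε - 2 * dd * τ) = N ^ ε / N ^ (2 * dd * τ) := Real.rpow_sub hN _ _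
  rw [e2]
  have h4 : (4 : ℝ) ^ (n - 1) ≤ 4 ^ n := pow_le_pow_right₀ (by norm_num) (by omega)
  have hc : C₀ ^ (2 * τ) ≤ C₀ ^ 2 := by
    rw [← Real.rpow_natCast C₀ 2]
    exact Real.rpow_le_rpow_of_exponent_le hC₀ (by push_cast; linarith)
  have hNp : 0 < N ^ (2 * dd * τ) := Real.rpow_pos_of_pos hN _
  have hNε : 0 < N ^ ε := Real.rpow_pos_of_pos hN _
  have hYp : 0 < Y ^ (2 * n ^ 2 * τ) := Real.rpow_pos_of_pos hY0 _
  have hXp : 0 < X ^ (2 * n * τ) := Real.rpow_pos_of_pos hX _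
  have hCp : 0 < C₀ ^ (2 * τ) := Real.rpow_pos_of_pos hC0 _
  calc 4 ^ (n - 1) * (C₀ ^ (2 * τ) * Y ^ (2 * n ^ 2 * τ) * X ^ (2 * n * τ) / N ^ (2 * dd * τ)) *
        (n * (C₀ * sz * N ^ ε * V))
      = (4 ^ (n - 1) * C₀ ^ (2 * τ)) * (n * C₀ * (Y ^ (2 * n ^ 2 * τ) * X ^ (2 * n * τ) * sz *
          (N ^ ε / N ^ (2 * dd * τ)) * V)) := by ring
    _ ≤ (4 ^ n * C₀ ^ 2) * (n * C₀ * (Y ^ (2 * n ^ 2 * τ) * X ^ (2 * n * τ) * sz *
          (N ^ ε / N ^ (2 * dd * τ)) * V)) := by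
        apply mul_le_mul_of_nonneg_right _ (by positivity)
        exact mul_le_mul h4 hc hCp.le (by positivity)
    _ = _ := by ring

theorem card_ls (n k₀ : ℕ) : ((Finset.range (k₀ + 1)).filter fun l => k₀ < l + n).card ≤ n := by
  calc ((Finset.range (k₀ + 1)).filter fun l => k₀ < l + n).card ≤ (Finset.range n).card := by
        apply Finset.card_le_card_of_injOn fun l => k₀ - l
        · intro l hl
          simp only [Finset.coe_filter, Finset.mem_range, Set.mem_ofPred_eq] at hl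
          simp only [Finset.coe_range, Set.mem_Iio]
          omega
        · intro a ha b hb hab
          simp only [Finset.coe_filter, Finset.mem_range, Set.mem_ofPred_eq] at ha hb
          simp only at hab
          omega
    _ = n := Finset.card_range n

/-- a violating form has a large eigenvalue -/
theorem large_ev (hgrow : S_grow) {n N p k₀ : ℕ} {τ X M : ℝ} {l : ℕ → ℂ} (hτ : 0 < τ)
    (hv : Viol (n := n) N τ p l) (hpX : (p : ℝ) ≤ X) (hM : 1 ≤ M) (hk : M < (p : ℝ) ^ (k₀ + 1)) :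
    ∃ r ∈ (Finset.range (k₀ + 1)).filter (fun l => k₀ < l + n),
      (4 ^ (n - 1))⁻¹ * (M / X ^ n) ^ (2 * τ) ≤ ‖l (p ^ r)‖ ^ 2 := by
  obtain ⟨hp, -, α, hα, j, hj⟩ := hv
  have hn : Nonempty (Fin n) := ⟨j⟩
  obtain ⟨j', hj'⟩ := Finite.exists_max fun i => ‖α i‖
  obtain ⟨r, hr1, hr2, hr3⟩ := hgrow n α j' hj' k₀
  refine ⟨r, by simp only [Finset.mem_filter, Finset.mem_range]; omega, ?_⟩
  rw [hα r]
  have hp1 : (1 : ℝ) < p := by exact_mod_cast hp.one_lt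
  have hp0 : (0 : ℝ) < p := by linarith
  have hX0 : 0 < X := by linarith
  have h1 : (p : ℝ) ^ τ ≤ ‖α j'‖ := hj.trans (hj' j)
  have h2 : ((p : ℝ) ^ r) ^ τ ≤ 2 ^ (n - 1) * ‖hs α r‖ := by
    refine le_trans ?_ hr3
    rw [← Real.rpow_natCast (p : ℝ) r, ← Real.rpow_mul hp0.le, mul_comm, Real.rpow_mul hp0.le, Real.rpow_natCast]
    exact pow_le_pow_left₀ (Real.rpow_nonneg hp0.le _) h1 r
  have h3 : M / X ^ n ≤ (p : ℝ) ^ r := by
    rw [div_le_iff₀ (by positivity)]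
    calc M ≤ (p : ℝ) ^ (k₀ + 1) := hk.le
      _ ≤ (p : ℝ) ^ (r + n) := pow_le_pow_right₀ hp1.le (by omega)
      _ = (p : ℝ) ^ r * (p : ℝ) ^ n := pow_add _ _ _
      _ ≤ (p : ℝ) ^ r * X ^ n := by gcongr
  have h4 : (M / X ^ n) ^ τ ≤ 2 ^ (n - 1) * ‖hs α r‖ :=
    (Real.rpow_le_rpow (by positivity) h3 hτ.le).trans h2
  have h5 : (M / X ^ n) ^ (2 * τ) = ((M / X ^ n) ^ τ) ^ 2 := by
    rw [mul_comm, Real.rpow_mul (by positivity)]
    norm_cast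
  rw [h5, inv_mul_le_iff₀ (by positivity)]
  calc ((M / X ^ n) ^ τ) ^ 2 ≤ (2 ^ (n - 1) * ‖hs α r‖) ^ 2 :=
        pow_le_pow_left₀ (Real.rpow_nonneg (by positivity) _) h4 2
    _ = 4 ^ (n - 1) * ‖hs α r‖ ^ 2 := by
        rw [mul_pow, ← pow_mul, mul_comm (n - 1) 2, pow_mul]
        norm_num

theorem t_REG (hshb : S_shb) (hgrow : S_grow) : S_reg := by
  classical
  intro n hn H dd sz hsz hP χ hχ hχc ε hε
  obtain ⟨C₀, hC₀, hb⟩ := hshb n hn H dd sz hsz hP χ hχ hχc ε hε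
  have hC0 : 0 < C₀ := by linarith
  have hn1 : (1 : ℝ) ≤ n := by exact_mod_cast hn
  have hle : C₀ ≤ n * 4 ^ n * C₀ ^ 3 := by
    have h4 : (1 : ℝ) ≤ 4 ^ n := one_le_pow₀ (by norm_num)
    have h5 : (1 : ℝ) ≤ n * 4 ^ n := by nlinarith
    have h6 : C₀ ≤ C₀ ^ 3 := le_self_pow₀ hC₀ (by norm_num)
    calc C₀ ≤ C₀ ^ 3 := h6
      _ = 1 * C₀ ^ 3 := (one_mul _).symm
      _ ≤ _ := by gcongr
  refine ⟨n * 4 ^ n * C₀ ^ 3, hC₀.trans hle, ?_⟩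
  intro N _ F hF k f l hfam heig τ X Y V p hτ hτ1 hpX hY hCN hV T hT hTS hTV I hI
  rcases I.eq_empty_or_nonempty with rfl | ⟨i₀, hi₀⟩
  · simp
  have hp : p.Prime := (hI i₀ hi₀).1
  have hpN : ¬ p ∣ N := (hI i₀ hi₀).2.1
  have hp1 : (1 : ℝ) < p := by exact_mod_cast hp.one_lt
  have hX0 : 0 < X := by linarith
  have hY0 : 0 < Y := by linarith
  have hN0 : (0 : ℝ) < N := by exact_mod_cast Nat.pos_of_ne_zero (NeZero.ne N)
  set M : ℝ := (N : ℝ) ^ dd / (C₀ * Y ^ (n ^ 2)) with hMdef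
  have hM : 1 ≤ M := by
    rw [hMdef, le_div_iff₀ (by positivity), one_mul]
    refine le_trans ?_ hCN
    gcongr
  set k₀ : ℕ := Nat.log p ⌊M⌋₊ with hk₀
  have hfl : ⌊M⌋₊ ≠ 0 := by
    have := Nat.le_floor (α := ℝ) (n := 1) (a := M) (by simpa using hM)
    omega
  have hk1 : (p : ℝ) ^ k₀ ≤ M := by
    have h1 : p ^ k₀ ≤ ⌊M⌋₊ := Nat.pow_log_le_self p hfl
    calc (p : ℝ) ^ k₀ = ((p ^ k₀ : ℕ) : ℝ) := by push_cast; rfl
      _ ≤ (⌊M⌋₊ : ℝ) := by exact_mod_cast h1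
      _ ≤ M := Nat.floor_le (by linarith)
  have hk2 : M < (p : ℝ) ^ (k₀ + 1) := by
    have h1 : ⌊M⌋₊ < p ^ (k₀ + 1) := Nat.lt_pow_succ_log_self hp.one_lt ⌊M⌋₊
    have h2 : M < ((p ^ (k₀ + 1) : ℕ) : ℝ) := (Nat.floor_lt (by linarith)).1 h1
    push_cast at h2
    exact h2
  set Ls : Finset ℕ := (Finset.range (k₀ + 1)).filter fun l => k₀ < l + n with hLs
  set Q : ℝ := (4 ^ (n - 1))⁻¹ * (M / X ^ n) ^ (2 * τ) with hQ
  have hQ0 : 0 < Q := by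
    rw [hQ]
    have : 0 < (M / X ^ n) ^ (2 * τ) := Real.rpow_pos_of_pos (by positivity) _
    positivity
  set ma : Fin k → ℝ≥0∞ := fun i => ∫⁻ g in F ∩ sat T, Pool.Agent.T2h77.N.sq (Rc χ (f i)) g ∂(mu n) with hma
  have hone : ∀ i ∈ I, ma i ≤ ENNReal.ofReal Q⁻¹ * ∑ r ∈ Ls, ‖l i (p ^ r)‖ₑ ^ 2 * ma i := by
    intro i hi
    obtain ⟨r, hr, hr2⟩ := large_ev hgrow hτ (hI i hi) hpX hM hk2
    have h1 : ENNReal.ofReal Q ≤ ‖l i (p ^ r)‖ₑ ^ 2 := by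
      rw [← ofReal_norm, ← ENNReal.ofReal_pow (norm_nonneg _)]
      exact ENNReal.ofReal_le_ofReal hr2
    calc ma i = ENNReal.ofReal Q⁻¹ * (ENNReal.ofReal Q * ma i) := by
          rw [← mul_assoc, ← ENNReal.ofReal_mul (by positivity), inv_mul_cancel₀ hQ0.ne', ENNReal.ofReal_one, one_mul]
      _ ≤ ENNReal.ofReal Q⁻¹ * (‖l i (p ^ r)‖ₑ ^ 2 * ma i) := by gcongr
      _ ≤ ENNReal.ofReal Q⁻¹ * ∑ r ∈ Ls, ‖l i (p ^ r)‖ₑ ^ 2 * ma i := by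
          gcongr
          exact Finset.single_le_sum (f := fun r => ‖l i (p ^ r)‖ₑ ^ 2 * ma i) (fun _ _ => zero_le) hr
  have hr : ∀ r ∈ Ls, ∑ i ∈ I, ‖l i (p ^ r)‖ₑ ^ 2 * ma i ≤ ENNReal.ofReal (C₀ * sz N * (N : ℝ) ^ ε * V) := by
    intro r hr
    rw [hLs, Finset.mem_filter, Finset.mem_range] at hr
    have hm : C₀ * ((p ^ r : ℕ) : ℝ) * Y ^ (n ^ 2) ≤ (N : ℝ) ^ dd := by
      have h1 : ((p ^ r : ℕ) : ℝ) ≤ M := by
        push_cast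
        exact (pow_le_pow_right₀ hp1.le (by omega)).trans hk1
      rw [hMdef, le_div_iff₀ (by positivity)] at h1
      linarith
    have h2 := hb N F hF k f l hfam heig Y (p ^ r) hY (pow_pos hp.pos _)
      (Nat.Coprime.pow_left _ ((Nat.Prime.coprime_iff_not_dvd hp).2 hpN)) hm T hT hTS
    calc ∑ i ∈ I, ‖l i (p ^ r)‖ₑ ^ 2 * ma i ≤ ∑ i, ‖l i (p ^ r)‖ₑ ^ 2 * ma i :=
          Finset.sum_le_sum_of_subset (Finset.subset_univ _)
      _ ≤ ENNReal.ofReal (C₀ * sz N * (N : ℝ) ^ ε) * mu n T := h2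
      _ ≤ ENNReal.ofReal (C₀ * sz N * (N : ℝ) ^ ε) * ENNReal.ofReal V := by gcongr
      _ = _ := by
          rw [← ENNReal.ofReal_mul]
          have := hsz N
          positivity
  calc ∑ i ∈ I, ma i ≤ ∑ i ∈ I, ENNReal.ofReal Q⁻¹ * ∑ r ∈ Ls, ‖l i (p ^ r)‖ₑ ^ 2 * ma i :=
        Finset.sum_le_sum hone
    _ = ENNReal.ofReal Q⁻¹ * ∑ r ∈ Ls, ∑ i ∈ I, ‖l i (p ^ r)‖ₑ ^ 2 * ma i := by
        rw [← Finset.mul_sum, Finset.sum_comm]
    _ ≤ ENNReal.ofReal Q⁻¹ * ∑ r ∈ Ls, ENNReal.ofReal (C₀ * sz N * (N : ℝ) ^ ε * V) := by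
        gcongr with r hr'
        exact hr r hr'
    _ = ENNReal.ofReal Q⁻¹ * ((Ls.card : ℝ≥0∞) * ENNReal.ofReal (C₀ * sz N * (N : ℝ) ^ ε * V)) := by
        rw [Finset.sum_const, nsmul_eq_mul]
    _ ≤ ENNReal.ofReal Q⁻¹ * ((n : ℝ≥0∞) * ENNReal.ofReal (C₀ * sz N * (N : ℝ) ^ ε * V)) := by
        gcongr
        exact_mod_cast card_ls n k₀
    _ = ENNReal.ofReal (Q⁻¹ * (n * (C₀ * sz N * (N : ℝ) ^ ε * V))) := by
        rw [← ENNReal.ofReal_natCast n, ← ENNReal.ofReal_mul (by positivity), ← ENNReal.ofReal_mul (by positivity)]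
    _ ≤ _ := ENNReal.ofReal_le_ofReal (reg_real hC₀ hX0 hY hN0 hτ1 (hsz N) hV)

end Pool.Agent.T2h77.Z
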