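import Pool.Agent.T2h77Z.Stm

/-!
# SHB: the bound for the mass in a region
-/

set_option autoImplicit false

open MeasureTheory Matrix
open scoped MatrixGroups ENNReal Topology ComplexConjugate

noncomputable section

namespace Pool.Agent.T2h77.Z

open Pool.Agent.T2h77.N Pool.Agent.T2h79.LG

theorem t_SHB (hcov : S_cov) (hrcf : S_rcf) : S_shb := by
  classical
  intro n hn H dd sz hsz hP χ hχ hχc ε hε
  obtain ⟨C, hC, hlsp⟩ := hP χ hχ hχc ε hε
  refine ⟨C, hC, ?_⟩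
  intro N _ F hFD k f l hf heig Y m hY hm hmN hBC T hT hTS
  have hpt := hlsp N F hFD k f l hf heig Y m hY hm hmN hBC
  have hRc : ∀ i, IsForm (H N) (Rc χ (f i)) :=
    fun i => (hrcf n χ hχ hχc N (H N) F hFD (f i) (hf.1 i) (hf.2.1 i)).1
  set a : Fin k → ℝ≥0∞ := fun i => ‖l i m‖ₑ ^ 2 with hadef
  set h : GR n → ℝ≥0∞ := fun g => ∑ i, a i * Pool.Agent.T2h77.N.sq (Rc χ (f i)) g with hh
  have hhm : Measurable h := Finset.measurable_sum _ fun i _ => (measurable_sq (hRc i)).const_mul _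
  have h1 : ∑ i, a i * ∫⁻ g in F ∩ sat T, Pool.Agent.T2h77.N.sq (Rc χ (f i)) g ∂(mu n) =
      ∫⁻ g in F ∩ sat T, h g ∂(mu n) := by
    rw [hh, lintegral_finsetSum _ fun i _ => (measurable_sq (hRc i)).const_mul _]
    exact Finset.sum_congr rfl fun i _ => (lintegral_const_mul _ (measurable_sq (hRc i))).symm
  rw [h1]
  refine (hcov n F T h hFD hT hhm fun γ g => ?_).trans ?_
  · rw [hh]
    exact Finset.sum_congr rfl fun i _ => by rw [sq_inv (hRc i)]
  calc ∫⁻ g in T, h g ∂(mu n)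
      ≤ ∫⁻ _g in T, ENNReal.ofReal (C * sz N * (N : ℝ) ^ ε) ∂(mu n) :=
        setLIntegral_mono' hT fun x hx => hpt x (hTS hx)
    _ = ENNReal.ofReal (C * sz N * (N : ℝ) ^ ε) * mu n T := by
        rw [setLIntegral_const]

end Pool.Agent.T2h77.Z
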