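import Pool.Agent.T2h77Z.Stm

/-! The volume of the shells (SHV). -/

set_option autoImplicit false

open MeasureTheory Matrix
open scoped MatrixGroups ENNReal Topology

noncomputable section

namespace Pool.Agent.T2h77.Z

open Pool.Agent.T2h77.N Pool.Agent.T2h79.LG

namespace SHVa

theorem chain {n : ℕ} {x : GR n} (hx : x ∈ SG n) : ∀ (k : ℕ) (i j : Fin n), (j : ℕ) + k = i →
    ac x j ≤ 2 ^ k * ac x i := by
  intro k
  induction k with
  | zero =>
    intro i j h
    have h1 : j = i := Fin.ext (by omega)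
    rw [h1]
    simp
  | succ k ih =>
    intro i j h
    have hj : (j : ℕ) + 1 < n := by
      have := i.2
      omega
    have h1 := ih i ⟨(j : ℕ) + 1, hj⟩ (by simp only; omega)
    have h2 := hx.2 j ⟨(j : ℕ) + 1, hj⟩ rfl
    calc ac x j ≤ 2 * ac x ⟨(j : ℕ) + 1, hj⟩ := h2
      _ ≤ 2 * (2 ^ k * ac x i) := by linarith
      _ = 2 ^ (k + 1) * ac x i := by ring

theorem le_prod {ι : Type*} [Fintype ι] (f : ι → ℝ) (h : ∀ i, 1 ≤ f i) :
    1 ≤ ∏ i, f i ∧ ∀ i, f i ≤ ∏ i, f i := by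
  classical
  have key : ∀ s : Finset ι, 1 ≤ ∏ i ∈ s, f i := by
    intro s
    have h1 := Finset.prod_le_prod (s := s) (f := fun _ : ι => (1 : ℝ)) (g := f)
      (fun _ _ => zero_le_one) (fun i _ => h i)
    simpa using h1
  refine ⟨key _, fun i => ?_⟩
  rw [← Finset.mul_prod_erase Finset.univ f (Finset.mem_univ i)]
  exact le_mul_of_one_le_right (zero_le_one.trans (h i)) (key _)

theorem point (hiw : S_iw) {n : ℕ} {Y W : ℝ} {x : GR n} (hx : x ∈ SH n Y W) :
    Y ≤ ((2 : ℝ) ^ n) ^ (n ^ 2) * wt (ac x) := by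
  obtain ⟨hp, -⟩ := hiw n
  obtain ⟨⟨hG, -⟩, i0, j0, hij, hY⟩ := hx
  have e : ((2 : ℝ) ^ n) ^ (n ^ 2) = ∏ i : Fin n, ∏ j : Fin n, (2 : ℝ) ^ n := by
    simp [pow_two, pow_mul]
  rw [e]
  unfold wt
  rw [← Finset.prod_mul_distrib]
  have e2 : ∀ i : Fin n, (∏ j : Fin n, (2 : ℝ) ^ n) * (∏ j, if j < i then ac x i / ac x j else 1) =
      ∏ j, (2 : ℝ) ^ n * (if j < i then ac x i / ac x j else 1) := fun i =>
    Finset.prod_mul_distrib.symm
  rw [Finset.prod_congr rfl fun i _ => e2 i]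
  have h1 : ∀ i j : Fin n, 1 ≤ (2 : ℝ) ^ n * (if j < i then ac x i / ac x j else 1) := by
    intro i j
    by_cases hj : j < i
    · rw [if_pos hj, ← mul_div_assoc, le_div_iff₀ (hp x j), one_mul]
      have h2 := chain hG ((i : ℕ) - j) i j (by
        have : (j : ℕ) < i := hj
        omega)
      have h3 : (2 : ℝ) ^ ((i : ℕ) - j) ≤ 2 ^ n :=
        pow_le_pow_right₀ (by norm_num) (by have := i.2; omega)
      exact h2.trans (mul_le_mul_of_nonneg_right h3 (hp x i).le)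
    · rw [if_neg hj, mul_one]
      exact one_le_pow₀ (by norm_num)
  have h4 : Y ≤ (2 : ℝ) ^ n * (if i0 < j0 then ac x j0 / ac x i0 else 1) := by
    have h5 : i0 < j0 := by
      show (i0 : ℕ) < j0
      omega
    rw [if_pos h5]
    have h6 : Y ≤ ac x j0 / ac x i0 := by
      rw [le_div_iff₀ (hp x i0)]
      exact hY
    have h7 : 0 ≤ ac x j0 / ac x i0 := (div_pos (hp x j0) (hp x i0)).le
    have h8 : (1 : ℝ) ≤ 2 ^ n := one_le_pow₀ (by norm_num)
    nlinarith
  refine h4.trans (((le_prod _ (h1 j0)).2 i0).trans ?_)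
  exact (le_prod (fun i : Fin n => ∏ j, (2 : ℝ) ^ n * (if j < i then ac x i / ac x j else 1))
    (fun i => (le_prod _ (h1 i)).1)).2 j0

end SHVa

open SHVa

theorem t_SHV (hiw : S_iw) (hint : S_int) : S_shv := by
  intro n hn
  obtain ⟨Ci, hCi, hi⟩ := hint n
  set D : ℝ := ((2 : ℝ) ^ n) ^ (n ^ 2) with hD
  have hD0 : 0 < D := by positivity
  refine ⟨max 1 (D * Ci * 2 ^ n), le_max_left _ _, fun Y hY => ?_⟩
  have hY0 : 0 < Y := by linarith
  have hlog : 0 ≤ Real.log Y := Real.log_nonneg hY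
  calc mu n (SH n Y (2 * Y)) = ∫⁻ _ in SH n Y (2 * Y), 1 ∂(mu n) := by simp
    _ ≤ ∫⁻ x in SH n Y (2 * Y), ENNReal.ofReal (D * Y⁻¹) * ENNReal.ofReal (wt (ac x)) ∂(mu n) := by
        refine setLIntegral_mono' (measurable_SH hiw n Y (2 * Y)) fun x hx => ?_
        rw [← ENNReal.ofReal_mul (by positivity), ← ENNReal.ofReal_one]
        refine ENNReal.ofReal_le_ofReal ?_
        have h1 := point hiw hx
        rw [← hD] at h1
        have h2 : D * Y⁻¹ * wt (ac x) = D * wt (ac x) / Y := by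
          field_simp
        rw [h2, le_div_iff₀ hY0, one_mul]
        exact h1
    _ = ENNReal.ofReal (D * Y⁻¹) * ∫⁻ x in SH n Y (2 * Y), ENNReal.ofReal (wt (ac x)) ∂(mu n) :=
        lintegral_const_mul _ (measurable_wt hiw n)
    _ ≤ ENNReal.ofReal (D * Y⁻¹) * ∫⁻ x in SL n (2 * Y), ENNReal.ofReal (wt (ac x)) ∂(mu n) := by
        gcongr
        exact Set.inter_subset_left
    _ ≤ ENNReal.ofReal (D * Y⁻¹) * ENNReal.ofReal (Ci * (1 + Real.log (2 * Y)) ^ n) := by
        gcongr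
        exact hi (2 * Y) (by linarith)
    _ = ENNReal.ofReal (D * Y⁻¹ * (Ci * (1 + Real.log (2 * Y)) ^ n)) := by
        rw [← ENNReal.ofReal_mul (by positivity)]
    _ ≤ ENNReal.ofReal (max 1 (D * Ci * 2 ^ n) * Y⁻¹ * (1 + Real.log Y) ^ n) := by
        refine ENNReal.ofReal_le_ofReal ?_
        have h1 : 1 + Real.log (2 * Y) ≤ 2 * (1 + Real.log Y) := by
          rw [Real.log_mul (by norm_num) hY0.ne']
          have h2 : Real.log 2 ≤ 1 := by
            have := Real.log_two_lt_d9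
            linarith
          linarith
        have h0 : 0 ≤ 1 + Real.log (2 * Y) := by
          have := Real.log_nonneg (show (1 : ℝ) ≤ 2 * Y by linarith)
          linarith
        have h3 : (1 + Real.log (2 * Y)) ^ n ≤ 2 ^ n * (1 + Real.log Y) ^ n := by
          rw [← mul_pow]
          exact pow_le_pow_left₀ h0 h1 n
        have h4 : D * Ci * 2 ^ n ≤ max 1 (D * Ci * 2 ^ n) := le_max_right _ _
        have h5 : 0 ≤ Y⁻¹ * (1 + Real.log Y) ^ n := by positivity
        calc D * Y⁻¹ * (Ci * (1 + Real.log (2 * Y)) ^ n)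
            ≤ D * Y⁻¹ * (Ci * (2 ^ n * (1 + Real.log Y) ^ n)) := by gcongr
          _ = D * Ci * 2 ^ n * (Y⁻¹ * (1 + Real.log Y) ^ n) := by ring
          _ ≤ max 1 (D * Ci * 2 ^ n) * (Y⁻¹ * (1 + Real.log Y) ^ n) :=
              mul_le_mul_of_nonneg_right h4 h5
          _ = max 1 (D * Ci * 2 ^ n) * Y⁻¹ * (1 + Real.log Y) ^ n := by ring

end Pool.Agent.T2h77.Z
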