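import Pool.Agent.T2h77Z.Stm2

/-! The volume of the shells, sharp form (SHV1). -/

set_option autoImplicit false

open MeasureTheory Matrix
open scoped MatrixGroups ENNReal Topology

noncomputable section

namespace Pool.Agent.T2h77.Z

open Pool.Agent.T2h77.N Pool.Agent.T2h79.LG

namespace SHV1a

theorem chain {n : ℕ} {x : GR n} (hx : x ∈ SG n) : ∀ (k : ℕ) (i j : Fin n), (j : ℕ) + k = i →
    ac x j ≤ 2 ^ k * ac x i := by
  intro k
  induction k with
  | zero =>
    intro i j h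
    have h1 : j = i := Fin.ext (by omega)
    rw [h1]
    simp
  | succ k ih =>
    intro i j h
    have hj : (j : ℕ) + 1 < n := by
      have := i.2
      omega
    have h1 := ih i ⟨(j : ℕ) + 1, hj⟩ (by simp only; omega)
    have h2 := hx.2 j ⟨(j : ℕ) + 1, hj⟩ rfl
    calc ac x j ≤ 2 * ac x ⟨(j : ℕ) + 1, hj⟩ := h2
      _ ≤ 2 * (2 ^ k * ac x i) := by linarith
      _ = 2 ^ (k + 1) * ac x i := by ring

theorem chain' (hiw : S_iw) {n : ℕ} {x : GR n} (hx : x ∈ SG n) {i j : Fin n} (h : j ≤ i) :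
    ac x j ≤ 2 ^ n * ac x i := by
  obtain ⟨hp, -⟩ := hiw n
  have h2 := chain hx ((i : ℕ) - j) i j (by
    have : (j : ℕ) ≤ i := h
    omega)
  have h3 : (2 : ℝ) ^ ((i : ℕ) - j) ≤ 2 ^ n :=
    pow_le_pow_right₀ (by norm_num) (by have := i.2; omega)
  exact h2.trans (mul_le_mul_of_nonneg_right h3 (hp x i).le)

/-- the pairs with a large root -/
def pr {n : ℕ} (i0 j0 r : Fin n) : Fin n × Fin n := if i0 < r then (r, i0) else (j0, r)

theorem pr_inj {n : ℕ} (i0 j0 : Fin n) :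
    Set.InjOn (pr i0 j0) ((Finset.univ.erase i0 : Finset (Fin n)) : Set (Fin n)) := by
  intro r hr r' hr' h
  have h1 : r ≠ i0 := Finset.ne_of_mem_erase hr
  have h2 : r' ≠ i0 := Finset.ne_of_mem_erase hr'
  unfold pr at h
  by_cases c : i0 < r
  · by_cases c' : i0 < r'
    · rw [if_pos c, if_pos c'] at h
      exact (Prod.mk.inj h).1
    · rw [if_pos c, if_neg c'] at h
      exact absurd (Prod.mk.inj h).2.symm h2
  · by_cases c' : i0 < r'
    · rw [if_neg c, if_pos c'] at h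
      exact absurd (Prod.mk.inj h).2 h1
    · rw [if_neg c, if_neg c'] at h
      exact (Prod.mk.inj h).2

theorem point (hiw : S_iw) {n : ℕ} {Y W : ℝ} (hY1 : 1 ≤ Y) {x : GR n} (hx : x ∈ SH n Y W) :
    Y ^ (n - 1) ≤ ((2 : ℝ) ^ n) ^ (n ^ 2) * wt (ac x) := by
  classical
  obtain ⟨hp, -⟩ := hiw n
  obtain ⟨⟨hG, -⟩, i0, j0, hij, hY⟩ := hx
  have e : ((2 : ℝ) ^ n) ^ (n ^ 2) = ∏ i : Fin n, ∏ j : Fin n, (2 : ℝ) ^ n := by
    simp [pow_two, pow_mul]
  rw [e]
  unfold wt
  rw [← Finset.prod_mul_distrib]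
  have e2 : ∀ i : Fin n, (∏ j : Fin n, (2 : ℝ) ^ n) * (∏ j, if j < i then ac x i / ac x j else 1) =
      ∏ j, (2 : ℝ) ^ n * (if j < i then ac x i / ac x j else 1) := fun i =>
    Finset.prod_mul_distrib.symm
  rw [Finset.prod_congr rfl fun i _ => e2 i,
    ← Fintype.prod_prod_type' (fun i j : Fin n =>
      (2 : ℝ) ^ n * (if j < i then ac x i / ac x j else 1))]
  have hn1 : (1 : ℝ) ≤ 2 ^ n := one_le_pow₀ (by norm_num)
  have h1 : ∀ z : Fin n × Fin n,
      1 ≤ (2 : ℝ) ^ n * (if z.2 < z.1 then ac x z.1 / ac x z.2 else 1) := by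
    intro z
    by_cases hj : z.2 < z.1
    · rw [if_pos hj, ← mul_div_assoc, le_div_iff₀ (hp x z.2), one_mul]
      exact chain' hiw hG hj.le
    · rw [if_neg hj, mul_one]
      exact hn1
  set S : Finset (Fin n × Fin n) := (Finset.univ.erase i0).image (pr i0 j0) with hS
  have hcard : S.card = n - 1 := by
    rw [hS, Finset.card_image_of_injOn (pr_inj i0 j0), Finset.card_erase_of_mem (Finset.mem_univ _),
      Finset.card_univ, Fintype.card_fin]
  have h2 : ∀ z ∈ S, Y ≤ (2 : ℝ) ^ n * (if z.2 < z.1 then ac x z.1 / ac x z.2 else 1) := by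
    intro z hz
    obtain ⟨r, hr, rfl⟩ := Finset.mem_image.1 hz
    have hr1 : r ≠ i0 := Finset.ne_of_mem_erase hr
    unfold pr
    by_cases c : i0 < r
    · rw [if_pos c]
      simp only
      rw [if_pos c, ← mul_div_assoc, le_div_iff₀ (hp x i0)]
      have h3 : j0 ≤ r := by
        have : (i0 : ℕ) < r := c
        show (j0 : ℕ) ≤ r
        omega
      exact hY.trans (chain' hiw hG h3)
    · rw [if_neg c]
      simp only
      have h3 : r < i0 := lt_of_le_of_ne (not_lt.1 c) hr1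
      have h4 : r < j0 := by
        have : (r : ℕ) < i0 := h3
        show (r : ℕ) < j0
        omega
      rw [if_pos h4, ← mul_div_assoc, le_div_iff₀ (hp x r)]
      have h5 := chain' hiw hG h3.le
      calc Y * ac x r ≤ Y * (2 ^ n * ac x i0) := by
            exact mul_le_mul_of_nonneg_left h5 (by linarith)
        _ = 2 ^ n * (Y * ac x i0) := by ring
        _ ≤ 2 ^ n * ac x j0 := mul_le_mul_of_nonneg_left hY (by positivity)
  calc Y ^ (n - 1) = ∏ z ∈ S, Y := by rw [Finset.prod_const, hcard]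
    _ ≤ ∏ z ∈ S, (2 : ℝ) ^ n * (if z.2 < z.1 then ac x z.1 / ac x z.2 else 1) :=
        Finset.prod_le_prod (fun _ _ => by linarith) h2
    _ ≤ ∏ z : Fin n × Fin n, (2 : ℝ) ^ n * (if z.2 < z.1 then ac x z.1 / ac x z.2 else 1) := by
        rw [← Finset.prod_sdiff (Finset.subset_univ S)]
        refine le_mul_of_one_le_left (Finset.prod_nonneg fun z _ => zero_le_one.trans (h1 z)) ?_
        have h3 := Finset.prod_le_prod (s := Finset.univ \ S) (f := fun _ : Fin n × Fin n => (1 : ℝ))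
          (g := fun z => (2 : ℝ) ^ n * (if z.2 < z.1 then ac x z.1 / ac x z.2 else 1))
          (fun _ _ => zero_le_one) (fun i _ => h1 i)
        simpa using h3

end SHV1a

open SHV1a

theorem t_SHV1 (hiw : S_iw) (hint : S_int) : S_shv1 := by
  intro n hn
  obtain ⟨Ci, hCi, hi⟩ := hint n
  set D : ℝ := ((2 : ℝ) ^ n) ^ (n ^ 2) with hD
  have hD0 : 0 < D := by positivity
  refine ⟨max 1 (D * Ci), le_max_left _ _, fun Y W hY hW => ?_⟩
  have hY0 : 0 < Y := by linarith
  have hlog : 0 ≤ Real.log W := Real.log_nonneg hW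
  calc mu n (SH n Y W) = ∫⁻ _ in SH n Y W, 1 ∂(mu n) := by simp
    _ ≤ ∫⁻ x in SH n Y W, ENNReal.ofReal (D * Y⁻¹ ^ (n - 1)) * ENNReal.ofReal (wt (ac x))
          ∂(mu n) := by
        refine setLIntegral_mono' (measurable_SH hiw n Y W) fun x hx => ?_
        rw [← ENNReal.ofReal_mul (by positivity), ← ENNReal.ofReal_one]
        refine ENNReal.ofReal_le_ofReal ?_
        have h1 := point hiw hY hx
        rw [← hD] at h1
        have h2 : D * Y⁻¹ ^ (n - 1) * wt (ac x) = D * wt (ac x) / Y ^ (n - 1) := by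
          rw [inv_pow]
          field_simp
        rw [h2, le_div_iff₀ (by positivity), one_mul]
        exact h1
    _ = ENNReal.ofReal (D * Y⁻¹ ^ (n - 1)) * ∫⁻ x in SH n Y W, ENNReal.ofReal (wt (ac x)) ∂(mu n) :=
        lintegral_const_mul _ (measurable_wt hiw n)
    _ ≤ ENNReal.ofReal (D * Y⁻¹ ^ (n - 1)) * ∫⁻ x in SL n W, ENNReal.ofReal (wt (ac x)) ∂(mu n) := by
        gcongr
        exact Set.inter_subset_left
    _ ≤ ENNReal.ofReal (D * Y⁻¹ ^ (n - 1)) * ENNReal.ofReal (Ci * (1 + Real.log W) ^ n) := by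
        gcongr
        exact hi W hW
    _ = ENNReal.ofReal (D * Y⁻¹ ^ (n - 1) * (Ci * (1 + Real.log W) ^ n)) := by
        rw [← ENNReal.ofReal_mul (by positivity)]
    _ ≤ ENNReal.ofReal (max 1 (D * Ci) * Y⁻¹ ^ (n - 1) * (1 + Real.log W) ^ n) := by
        refine ENNReal.ofReal_le_ofReal ?_
        have h4 : D * Ci ≤ max 1 (D * Ci) := le_max_right _ _
        have h5 : 0 ≤ Y⁻¹ ^ (n - 1) * (1 + Real.log W) ^ n := by positivity
        calc D * Y⁻¹ ^ (n - 1) * (Ci * (1 + Real.log W) ^ n)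
            = D * Ci * (Y⁻¹ ^ (n - 1) * (1 + Real.log W) ^ n) := by ring
          _ ≤ max 1 (D * Ci) * (Y⁻¹ ^ (n - 1) * (1 + Real.log W) ^ n) :=
              mul_le_mul_of_nonneg_right h4 h5
          _ = max 1 (D * Ci) * Y⁻¹ ^ (n - 1) * (1 + Real.log W) ^ n := by ring

end Pool.Agent.T2h77.Z
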