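import Pool.Agent.T2h79.LG.In77
import Pool.Agent.T2h77N.Grow
import Pool.Agent.T2h79.LG.T_AV1
import Pool.Agent.T2h79.LG.T_BOX
import Pool.Agent.T2h79.LG.T_BXL
import Pool.Agent.T2h79.LG.T_CN1
import Pool.Agent.T2h79.LG.T_DUA
import Pool.Agent.T2h79.LG.T_EXQ
import Pool.Agent.T2h79.LG.T_GCV
import Pool.Agent.T2h79.LG.T_HON
import Pool.Agent.T2h79.LG.T_IDX
import Pool.Agent.T2h79.LG.T_IDY
import Pool.Agent.T2h79.LG.T_KNU
import Pool.Agent.T2h79.LG.T_LP1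
import Pool.Agent.T2h79.LG.T_NQU
import Pool.Agent.T2h79.LG.T_REPG
import Pool.Agent.T2h79.LG.T_REPU
import Pool.Agent.T2h79.LG.T_RNU
import Pool.Agent.T2h79.LG.T_SLN
import Pool.Agent.T2h79.LG.T_SOL
import Pool.Agent.T2h79.LG.T_STR
import Pool.Agent.T2h79.LG.T_SYM
import Pool.Agent.T2h79.LG.T_TRH
import Pool.Agent.T2h79.LG.T_TRW
import Pool.Agent.T2h77Z.T_PL1
import Pool.Agent.T2h77Z.T_SHB
import Pool.Agent.T2h77Z.T_REG
import Pool.Agent.T2h77Z.T_SHV1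
import Pool.Agent.T2h77Z.T_FXW
import Pool.Agent.T2h77Z.T_BXW
import Pool.Agent.T2h77Z.T_CNTH
import Pool.Agent.T2h77Z.T_HI1
import Pool.Agent.T2h77Z.T_LOW1
import Pool.Agent.T2h77Z.T_FIN1

/-!
# The density theorem for the universal family: assembly
-/

set_option autoImplicit false

namespace Pool.Agent.T2h77.Z

open Pool.Agent.T2h77.N Pool.Agent.T2h79.LG

theorem u_knu : S_knu := KNU.t_KNU REPG.t_REPG IDX.t_IDX
theorem u_rnu : S_rnu := RNU.t_RNU REPG.t_REPG REPU.t_REPU IDX.t_IDX IDY.t_IDY DUA.t_DUA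
theorem u_nqu : S_nqu := NQU.t_NQU u_knu (BOX.t_BOX IDX.t_IDX IDY.t_IDY) DUA.t_DUA
theorem u_hon : S_hon := HON.t_HON SLN.t_SLN
theorem u_gcv : S_gcv := GCV.t_GCV BXL.t_BXL SOL.t_SOL u_knu
theorem u_exq : S_exq := EXQ.t_EXQ u_nqu u_rnu
theorem u_av1 : S_av1 := AV1.t_AV1 (STR.t_STR i_iw i_red) u_gcv u_exq REPG.t_REPG REPU.t_REPU
theorem u_cn1 : S_cn1 := CN1.t_CN1 i_iw i_ent u_hon
theorem u_lp1 : S_lp1 := LP1.t_LP1 t_TRW SYM.t_SYM u_cn1 u_av1 i_rcf REPG.t_REPG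
theorem u_trh : S_trh := TRH.t_TRH i_iw i_red i_int i_ent i_triv i_trace i_cut i_mass i_cov i_rcf
theorem u_reg : S_reg := t_REG (t_SHB i_cov i_rcf) grow
theorem u_shv : S_shv1 := t_SHV1 i_iw i_int
theorem u_cnth : S_cnth := t_CNTH i_iw i_ent u_hon t_FXW (t_BXW i_ent)
theorem u_hi1 : S_hi1 := t_HI1 i_iw i_red i_int i_trace i_cut i_mass i_cov i_rcf u_cnth u_shv u_hon
theorem u_low1 : S_low1 := t_LOW1 u_reg u_shv i_iw i_ent i_int

theorem u_uni : S_uni := t_FIN1 (t_PL1 u_lp1) u_low1 u_hi1 u_trh u_hon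

end Pool.Agent.T2h77.Z
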